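import Pool.Agent.W36.JL.J2
import Pool.Agent.W41.FU4

/-! Functions constant on trajectories that coalesce early: cancellation. -/

set_option autoImplicit false

namespace Pool.Agent.W36.JL

open Pool.Agent.H320R2.PD Pool.Agent.H499R2.ND Finset Pool.Agent.H499R2.CO Pool.Agent.W41.FU

/-- bounded functions that take the same value at `x` and `y` whenever the trajectories are at the
same point after `j` steps, `x` and `y` being larger than `2 ^ j` -/
def SameL (d : ℤ) : Set (ℤ → ℝ) :=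
  {f | (∀ x, |f x| ≤ 1) ∧ ∀ (j : ℕ) (x y : ℤ), 2 ^ j < x → 2 ^ j < y → (Tz d)^[j] x = (Tz d)^[j] y → f x = f y}

theorem Td_ge {x : ℤ} (hx : 0 < x) : 0 < Td 1 x ∧ x ≤ 2 * Td 1 x := by
  unfold Td
  split_ifs with h <;> constructor <;> omega

theorem iter_ge (j : ℕ) : ∀ x : ℤ, 0 < x → 0 < (Td 1)^[j] x ∧ x ≤ 2 ^ j * (Td 1)^[j] x := by
  induction j with
  | zero => intro x hx; simpa using hx
  | succ j ih =>
    intro x hx
    rw [Function.iterate_succ_apply]
    obtain ⟨h1, h2⟩ := Td_ge hx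
    obtain ⟨h3, h4⟩ := ih _ h1
    refine ⟨h3, ?_⟩
    rw [pow_succ]
    have h5 : 2 * Td 1 x ≤ 2 * (2 ^ j * (Td 1)^[j] (Td 1 x)) := mul_le_mul_of_nonneg_left h4 (by norm_num)
    linarith only [h2, h5]

theorem sameL_two {d : ℤ} {f : ℤ → ℝ} (hf : f ∈ SameL d) (e : ℕ) : (fun x => f (2 ^ e * x)) ∈ SameL d := by
  refine ⟨fun x => hf.1 _, ?_⟩
  intro j x y hx hy hxy
  have h2 : (0 : ℤ) < 2 ^ e := by positivity
  apply hf.2 (j + e)
  · rw [pow_add, mul_comm]
    exact mul_lt_mul_of_pos_left hx h2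
  · rw [pow_add, mul_comm]
    exact mul_lt_mul_of_pos_left hy h2
  have e1 : ∀ z : ℤ, (Tz d)^[j + e] (2 ^ e * z) = (Tz d)^[j] z := by
    intro z
    rw [Function.iterate_add_apply]
    have : (Tz d)^[e] (2 ^ e * z) = z := Td_two_pow d e z
    rw [this]
  rw [e1, e1, hxy]

theorem sameL_closed {d : ℤ} (hd1 : d = 1) : ClosedL d (SameL d) := by
  subst hd1
  intro f hf
  refine ⟨hf.1, fun k T => ⟨fun x => f (2 ^ T * x), sameL_two hf T, ?_⟩⟩
  intro w hw hlen hsum M x hM2 hx hV
  have hM3 : (2 : ℤ) ^ T < M := by exact_mod_cast hM2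
  have e : (Tz 1)^[T] (2 ^ T * x) = x := Td_two_pow 1 T x
  have h2T : (0 : ℤ) < 2 ^ T := by positivity
  have key : (Tz 1)^[T] M = x := by
    rcases eq_or_ne w [] with rfl | hne
    · unfold Vw at hV
      simp [Wo] at hV hsum
      subst hsum
      simpa using hV
    · have hM : Odd M := Vw_odd_left odd_one hw hne hV
      have := iter_word' odd_one w hw M x hM hx hV
      rw [hsum] at this
      exact this
  have hx1 : 1 < x := by
    have h1 := (iter_ge T M (by linarith)).2
    have h2 : (Td 1)^[T] M = x := key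
    rw [h2] at h1
    by_contra hcon
    push Not at hcon
    have h3 := mul_le_mul_of_nonneg_left hcon h2T.le
    linarith only [h1, h3, hM3]
  apply hf.2 T _ _ hM3
  · have h3 := mul_lt_mul_of_pos_left hx1 h2T
    linarith only [h3]
  · rw [e, key]

end Pool.Agent.W36.JL
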