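import Pool.Agent.W36.JL.J3A

/-! Functions constant on trajectories that coalesce early: cancellation. -/

set_option autoImplicit false

namespace Pool.Agent.W36.JL

open Pool.Agent.H320R2.PD Pool.Agent.H499R2.ND Finset Pool.Agent.H499R2.CO Pool.Agent.W41.FU

/-- CANCELLATION AGAINST A SHIFT. -/
theorem cancelL {d : ℤ} (hd : d % 2 = 1) (hdd : d * d = 1) {f : ℤ → ℝ} (hf : f ∈ SameL d) {g : ℤ → ℝ}
    (hg : ∀ x, |g x| ≤ 1) {a b : ℝ} (hab : a ≤ b) (m : ℕ) {u : ℤ} (hu : IsCoprime u 3) (v : ℤ) (k h' : ℕ)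
    (hak : (2 : ℝ) ^ k + 2 * 3 ^ m * h' < a) {ε1 : ℝ} (h0 : ∀ x : ℤ, a ≤ x → (x : ℝ) < b → |g (x + 2 * 3 ^ m * h') + g x| ≤ ε1) (hε1 : 0 ≤ ε1) :
    |WS (fun x => f x * g x) a b m u v| ≤
      q step (0, 0) k (0, -(d * (2 * 3 ^ m * h'))) * ((b - a) / 3 ^ m + 2 ^ k) + h' + 1
        + ε1 * ((b - a) / (2 * 3 ^ m) + 1) := by
  classical
  set h : ℤ := 2 * 3 ^ m * h' with hh
  set C := cls Set.univ a b m u v with hC
  set C' := cls Set.univ (a + (-(h : ℝ))) (b + (-(h : ℝ))) m u v with hC'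
  -- step 1: replace f x by f (x - h)
  have s1 : |∑ x ∈ C, f x * g x - ∑ x ∈ C, f (x - h) * g x|
      ≤ 2 * (q step (0, 0) k (0, -(d * h)) * ((b - a) / 3 ^ m + 2 ^ k)) := by
    rw [← sum_sub_distrib]
    refine (abs_sum_le_sum_abs _ _).trans ?_
    have hb : ∀ x ∈ C, |f x * g x - f (x - h) * g x| ≤ if surv d k (0, -(d * h)) x then 2 else 0 := by
      intro x hxC
      rw [← sub_mul, abs_mul]
      split_ifs with hs
      · have a1 := hf.1 x
        have a2 := hf.1 (x - h)
        have a3 := abs_sub (f x) (f (x - h))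
        have a4 := hg x
        nlinarith [abs_nonneg (g x), abs_nonneg (f x - f (x - h))]
      · obtain ⟨j, hjk, hj⟩ := coal hd k 0 (-(d * h)) _ hs
        have hxa : a ≤ x := by rw [hC, mem_cls] at hxC; exact hxC.1.1
        have hj1 : (2 : ℤ) ^ j < x - h := by
          have h1 : ((2 : ℝ)) ^ j ≤ 2 ^ k := pow_le_pow_right₀ (by norm_num) hjk
          have h2 : ((2 : ℝ)) ^ j < x - h := by
            rw [hh]; push_cast; linarith only [h1, hak, hxa]
          exact_mod_cast h2
        have hj2 : (2 : ℤ) ^ j < x := by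
          have : 0 ≤ h := by rw [hh]; positivity
          linarith only [this, hj1]
        have e : (3 : ℤ) ^ 0 * x + d * (-(d * h)) = x - h := by
          have : d * (-(d * h)) = -(d * d) * h := by ring
          rw [this, hdd]; ring
        rw [e] at hj
        rw [hf.2 j x (x - h) hj2 hj1 hj, sub_self, abs_zero, zero_mul]
    refine (sum_le_sum hb).trans ?_
    rw [← sum_filter, sum_const, nsmul_eq_mul]
    have := surv_card hd k (0, -(d * h)) hab m hu v
    linarith
  -- step 2: reindex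
  have s2 : ∑ x ∈ C, f (x - h) * g x = ∑ y ∈ C', f y * g (y + h) := by
    apply sum_bij' (fun x _ => x - h) (fun y _ => y + h)
    · intro x hx
      rw [hC, mem_cls] at hx
      rw [hC', mem_cls]
      push_cast
      refine ⟨⟨by linarith [hx.1.1], by linarith [hx.1.2]⟩, ?_, Set.mem_univ _, ?_⟩
      · obtain ⟨t, ht⟩ := hx.2.1
        exact ⟨t - 3 ^ m * h', by rw [ht, hh]; ring⟩
      · have h1 := hx.2.2.2
        have e : u * (x - h) - v = (u * x - v) - 3 ^ m * (u * (2 * h')) := by rw [hh]; ring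
        rw [e]
        exact dvd_sub h1 (dvd_mul_right _ _)
    · intro y hy
      rw [hC', mem_cls] at hy
      rw [hC, mem_cls]
      push_cast
      refine ⟨⟨by linarith [hy.1.1], by linarith [hy.1.2]⟩, ?_, Set.mem_univ _, ?_⟩
      · obtain ⟨t, ht⟩ := hy.2.1
        exact ⟨t + 3 ^ m * h', by rw [ht, hh]; ring⟩
      · have h1 := hy.2.2.2
        have e : u * (y + h) - v = (u * y - v) + 3 ^ m * (u * (2 * h')) := by rw [hh]; ring
        rw [e]
        exact dvd_add h1 (dvd_mul_right _ _)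
    · intro x _; ring
    · intro y _; ring
    · intro x _
      rw [sub_add_cancel]
  -- step 3: shift the window back
  have hg' : ∀ x, |f x * g (x + h)| ≤ 1 := by
    intro x
    rw [abs_mul]
    have a1 := hf.1 x
    have a4 := hg (x + h)
    nlinarith [abs_nonneg (g (x + h)), abs_nonneg (f x)]
  have hh0 : (0 : ℝ) ≤ h := by rw [hh]; push_cast; positivity
  have s3 : |WS (fun x => f x * g (x + h)) (a + (-(h : ℝ))) (b + (-(h : ℝ))) m u v
      - WS (fun x => f x * g (x + h)) a b m u v| ≤ 2 * ((h : ℝ) / (2 * 3 ^ m) + 1) := by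
    apply shiftW hg' _ m hu v
    rw [abs_neg, abs_of_nonneg hh0]
  have e3 : (h : ℝ) / (2 * 3 ^ m) = h' := by
    rw [hh]; push_cast; field_simp
  rw [e3] at s3
  -- step 4: the sign change
  have s4 : |WS (fun x => f x * g (x + h)) a b m u v + WS (fun x => f x * g x) a b m u v|
      ≤ ε1 * ((b - a) / (2 * 3 ^ m) + 1) := by
    unfold WS
    rw [← hC, ← sum_add_distrib]
    refine (abs_sum_le_sum_abs _ _).trans ?_
    have hb : ∀ x ∈ C, |f x * g (x + h) + f x * g x| ≤ ε1 := by
      intro x hx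
      rw [hC, mem_cls] at hx
      rw [← mul_add, abs_mul]
      have a1 := hf.1 x
      have a2 := h0 x hx.1.1 hx.1.2
      have a3 := abs_nonneg (g (x + h) + g x)
      nlinarith [abs_nonneg (f x)]
    refine (sum_le_sum hb).trans ?_
    rw [sum_const, nsmul_eq_mul, mul_comm]
    exact mul_le_mul_of_nonneg_left (cls_card_le Set.univ hab m hu v) hε1
  have e0 : WS (fun x => f x * g x) a b m u v = ∑ x ∈ C, f x * g x := rfl
  have e5 : WS (fun x => f x * g (x + h)) (a + (-(h : ℝ))) (b + (-(h : ℝ))) m u v = ∑ y ∈ C', f y * g (y + h) := rfl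
  rw [e5, ← s2] at s3
  set S0 := WS (fun x => f x * g x) a b m u v with hS0
  rw [← e0] at s1
  set S1 := ∑ x ∈ C, f (x - h) * g x with hS1
  set S3 := WS (fun x => f x * g (x + h)) a b m u v with hS3
  set Q := q step (0, 0) k (0, -(d * h)) * ((b - a) / 3 ^ m + 2 ^ k) with hQ
  have hX : 0 ≤ (b - a) / (2 * 3 ^ m) := div_nonneg (by linarith) (by positivity)
  rw [abs_le] at s1 s3 s4 ⊢
  have h9 : 0 ≤ ε1 * ((b - a) / (2 * 3 ^ m) + 1) := by positivity
  constructor
  · linarith [s1.1, s1.2, s3.1, s3.2, s4.1, s4.2]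
  · linarith [s1.1, s1.2, s3.1, s3.2, s4.1, s4.2]

end Pool.Agent.W36.JL
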