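import Pool.Agent.W36.JL.J3B
import Pool.Agent.H499R2.LT.R6

/-! The total stopping time and the thresholds of the normal law. -/

set_option autoImplicit false

namespace Pool.Agent.W36.JL

open Finset Filter Topology Pool.Agent.H320R2.PD
open Pool.Agent.H499R2.ND (Tn Dn cnt cnt_eq cnt_mono cnt_or cnt_small cnt_le Td Phi Phi_mono Phi_continuous Bas)
open Pool.Agent.H499R2.CO (Tz)
open Pool.Agent.H499R2.LT (Td_nat odn law_one Dn_sum Dn_iff)
open Pool.Agent.H499R2.ND (phi_cdf)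

/-- `t` is the total stopping time of `n` -/
def TS (n t : ℕ) : Prop := Tn^[t] n = 1 ∧ ∀ i < t, Tn^[i] n ≠ 1

theorem TS_unique {n t t' : ℕ} (h : TS n t) (h' : TS n t') : t = t' := by
  rcases lt_trichotomy t t' with h1 | h1 | h1
  · exact absurd h.1 (h'.2 t h1)
  · exact h1
  · exact absurd h'.1 (h.2 t' h1)

/-- the total stopping time is at most `B` and congruent to `a` -/
def EB (m : ℕ) (a : ℤ) (B : ℝ) (n : ℕ) : Prop := ∃ t : ℕ, (t : ℝ) ≤ B ∧ TS n t ∧ (t : ℤ) ≡ a [ZMOD m]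

theorem EB_mono {m : ℕ} {a : ℤ} {B B' : ℝ} {n : ℕ} (h : B ≤ B') : EB m a B n → EB m a B' n := by
  rintro ⟨t, h1, h2⟩
  exact ⟨t, h1.trans h, h2⟩

theorem EB_sand {m : ℕ} {a : ℤ} {B1 B2 L U : ℝ} {n : ℕ} (h1 : L ≤ B1) (h2 : B1 ≤ U) (h3 : L ≤ B2) (h4 : B2 ≤ U)
    (h : ¬ (EB m a B1 n ↔ EB m a B2 n)) : EB m a U n ∧ ¬ EB m a L n := by
  by_cases h5 : EB m a B1 n
  · have h6 : ¬ EB m a B2 n := fun h6 => h ⟨fun _ => h6, fun _ => h5⟩
    exact ⟨EB_mono h2 h5, fun h7 => h6 (EB_mono h3 h7)⟩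
  · have h6 : EB m a B2 n := by
      by_contra h6
      exact h ⟨fun h7 => absurd h7 h5, fun h7 => absurd h7 h6⟩
    exact ⟨EB_mono h4 h6, fun h7 => h5 (EB_mono h1 h7)⟩

theorem iter_two {j x : ℕ} (hx : 2 ^ j < x) {i : ℕ} (hi : i ≤ j) : Tn^[i] x ≠ 1 := by
  intro h
  have h1 := (iter_ge i (x : ℤ) (by exact_mod_cast (Nat.zero_lt_of_lt hx))).2
  rw [Td_nat, h] at h1
  have h2 : x ≤ 2 ^ i := by
    have : (x : ℤ) ≤ 2 ^ i := by simpa using h1
    exact_mod_cast this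
  have h3 : 2 ^ i ≤ 2 ^ j := Nat.pow_le_pow_right (by norm_num) hi
  omega

theorem TS_coal {j x y : ℕ} (hx : 2 ^ j < x) (hy : 2 ^ j < y) (h : Tn^[j] x = Tn^[j] y) {t : ℕ} (ht : TS x t) : TS y t := by
  have h1 : j < t := by
    by_contra hcon
    push Not at hcon
    exact iter_two hx hcon ht.1
  have e : ∀ i, j ≤ i → Tn^[i] x = Tn^[i] y := by
    intro i hi
    obtain ⟨l, rfl⟩ := Nat.exists_eq_add_of_le hi
    rw [add_comm, Function.iterate_add_apply, Function.iterate_add_apply, h]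
  refine ⟨by rw [← e t h1.le]; exact ht.1, fun i hi => ?_⟩
  rcases le_or_gt i j with h2 | h2
  · exact iter_two hy h2
  · rw [← e i h2.le]; exact ht.2 i hi

theorem EB_coal {m : ℕ} {a : ℤ} {B : ℝ} {j x y : ℕ} (hx : 2 ^ j < x) (hy : 2 ^ j < y) (h : Tn^[j] x = Tn^[j] y) :
    EB m a B x ↔ EB m a B y := by
  constructor
  · rintro ⟨t, h1, h2, h3⟩
    exact ⟨t, h1, TS_coal hx hy h h2, h3⟩
  · rintro ⟨t, h1, h2, h3⟩
    exact ⟨t, h1, TS_coal hy hx h.symm h2, h3⟩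

open Classical in
/-- the balanced indicator function of a threshold -/
noncomputable def gB (m : ℕ) (a : ℤ) (c B : ℝ) (x : ℤ) : ℝ := (if 0 < x ∧ EB m a B x.toNat then 1 else 0) - c

theorem gB_same (m : ℕ) (a : ℤ) {c : ℝ} (h0 : 0 ≤ c) (h1 : c ≤ 1) (B : ℝ) : gB m a c B ∈ SameL 1 := by
  constructor
  · intro x
    unfold gB
    rw [abs_le]
    split_ifs <;> constructor <;> linarith
  · intro j x y hx hy hxy
    have h2j : (0 : ℤ) < 2 ^ j := by positivity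
    obtain ⟨x', rfl⟩ := Int.eq_ofNat_of_zero_le (h2j.trans hx).le
    obtain ⟨y', rfl⟩ := Int.eq_ofNat_of_zero_le (h2j.trans hy).le
    have hx' : 2 ^ j < x' := by exact_mod_cast hx
    have hy' : 2 ^ j < y' := by exact_mod_cast hy
    have e1 : (Tz 1)^[j] (x' : ℤ) = ((Tn^[j] x' : ℕ) : ℤ) := Td_nat j x'
    have e2 : (Tz 1)^[j] (y' : ℤ) = ((Tn^[j] y' : ℕ) : ℤ) := Td_nat j y'
    rw [e1, e2] at hxy
    have h3 : Tn^[j] x' = Tn^[j] y' := by exact_mod_cast hxy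
    have h4 : (0 : ℤ) < x' := h2j.trans hx
    have h5 : (0 : ℤ) < y' := h2j.trans hy
    have h6 : (0 < (x' : ℤ) ∧ EB m a B (x' : ℤ).toNat) ↔ (0 < (y' : ℤ) ∧ EB m a B (y' : ℤ).toNat) := by
      rw [Int.toNat_natCast, Int.toNat_natCast]
      exact ⟨fun h => ⟨h5, (EB_coal hx' hy' h3).1 h.2⟩, fun h => ⟨h4, (EB_coal hx' hy' h3).2 h.2⟩⟩
    unfold gB
    by_cases h7 : (0 < (x' : ℤ) ∧ EB m a B (x' : ℤ).toNat)
    · rw [if_pos h7, if_pos (h6.1 h7)]
    · rw [if_neg h7, if_neg (fun h8 => h7 (h6.2 h8))]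

/-- the threshold of the normal law -/
noncomputable def bd (x : ℝ) (n : ℕ) : ℝ :=
  2 / Real.log (4 / 3) * Real.log n + x * (Real.log 3 * Real.sqrt (2 * Real.log n / Real.log (4 / 3) ^ 3))

/-- the standard deviation -/
noncomputable def sdv (n : ℕ) : ℝ := Real.log 3 * Real.sqrt (2 * Real.log n / Real.log (4 / 3) ^ 3)

theorem bd_eq (x : ℝ) (n : ℕ) : bd x n = 2 / Real.log (4 / 3) * Real.log n + x * sdv n := rfl

theorem lpos : 0 < Real.log (4 / 3) := Real.log_pos (by norm_num)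

theorem sdv_eq (n : ℕ) : sdv n = Real.log 3 * Real.sqrt (2 / Real.log (4 / 3) ^ 3) * Real.sqrt (Real.log n) := by
  unfold sdv
  have e : 2 * Real.log n / Real.log (4 / 3) ^ 3 = 2 / Real.log (4 / 3) ^ 3 * Real.log n := by ring
  have := lpos
  rw [e, Real.sqrt_mul (by positivity), mul_assoc]

theorem gpos : 0 < Real.log 3 * Real.sqrt (2 / Real.log (4 / 3) ^ 3) := by
  have := lpos
  have : 0 < Real.log 3 := Real.log_pos (by norm_num)
  positivity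

/-- the thresholds at comparable points -/
theorem bd_near (x : ℝ) {η : ℝ} (hη : 0 < η) (C D : ℝ) : ∃ N0 : ℕ, 1 ≤ N0 ∧ ∀ n N : ℕ, N0 ≤ n → N0 ≤ N →
    |Real.log N - Real.log n| ≤ D → bd (x - η) n + C ≤ bd x N ∧ bd x N + C ≤ bd (x + η) n := by
  obtain ⟨γ, hγ⟩ : ∃ γ : ℝ, γ = Real.log 3 * Real.sqrt (2 / Real.log (4 / 3) ^ 3) := ⟨_, rfl⟩
  have hγ0 : 0 < γ := by rw [hγ]; exact gpos
  obtain ⟨α, hα⟩ : ∃ α : ℝ, α = 2 / Real.log (4 / 3) := ⟨_, rfl⟩
  have hα0 : 0 < α := by rw [hα]; have := lpos; positivity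
  obtain ⟨N1, hN1⟩ := exists_nat_ge (Real.exp (((|C| + α * |D| + |x| * γ * Real.sqrt |D|) / (η * γ)) ^ 2))
  refine ⟨N1 + 1, by omega, fun n N hn hN hD => ?_⟩
  have hn1 : (1 : ℝ) ≤ n := by exact_mod_cast (by omega : 1 ≤ n)
  have hN1' : (1 : ℝ) ≤ N := by exact_mod_cast (by omega : 1 ≤ N)
  have hln : 0 ≤ Real.log n := Real.log_nonneg hn1
  have hlN : 0 ≤ Real.log N := Real.log_nonneg hN1'
  have hD0 : 0 ≤ D := (abs_nonneg _).trans hD
  rw [abs_of_nonneg hD0] at hN1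
  have h1 : (|C| + α * D + |x| * γ * Real.sqrt D) / (η * γ) ≤ Real.sqrt (Real.log n) := by
    apply Real.le_sqrt_of_sq_le
    rw [← Real.log_exp (((|C| + α * D + |x| * γ * Real.sqrt D) / (η * γ)) ^ 2)]
    apply Real.log_le_log (Real.exp_pos _)
    exact hN1.trans (by exact_mod_cast (by omega : N1 ≤ n))
  rw [div_le_iff₀ (by positivity)] at h1
  -- square roots
  have h2 : |Real.sqrt (Real.log N) - Real.sqrt (Real.log n)| ≤ Real.sqrt D := by
    have key : ∀ u v : ℝ, 0 ≤ u → 0 ≤ v → u - v ≤ D → Real.sqrt u - Real.sqrt v ≤ Real.sqrt D := by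
      intro u v hu hv huv
      have h3 : Real.sqrt u ≤ Real.sqrt (v + D) := Real.sqrt_le_sqrt (by linarith)
      have h4 : Real.sqrt (v + D) ≤ Real.sqrt v + Real.sqrt D := by
        rw [Real.sqrt_le_left (by positivity)]
        have e1 := Real.sq_sqrt hv
        have e2 := Real.sq_sqrt hD0
        have e3 : 0 ≤ Real.sqrt v * Real.sqrt D := by positivity
        have e4 : (Real.sqrt v + Real.sqrt D) ^ 2 = Real.sqrt v ^ 2 + Real.sqrt D ^ 2 + 2 * (Real.sqrt v * Real.sqrt D) := by ring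
        rw [e4, e1, e2]
        linarith
      linarith
    rw [abs_le]
    have h5 := abs_le.1 hD
    constructor
    · have := key _ _ hln hlN (by linarith [h5.1]); linarith
    · exact key _ _ hlN hln h5.2
  rw [bd_eq, bd_eq, bd_eq, sdv_eq, sdv_eq, ← hγ, ← hα]
  obtain ⟨u, hu⟩ : ∃ u, u = Real.sqrt (Real.log N) := ⟨_, rfl⟩
  obtain ⟨v, hv⟩ : ∃ v, v = Real.sqrt (Real.log n) := ⟨_, rfl⟩
  rw [← hu, ← hv] at h2
  rw [← hu, ← hv]
  rw [← hv] at h1
  have h3 : |α * (Real.log N - Real.log n)| ≤ α * D := by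
    rw [abs_mul, abs_of_pos hα0]
    exact mul_le_mul_of_nonneg_left hD hα0.le
  have h4 : |x * γ * (u - v)| ≤ |x| * γ * Real.sqrt D := by
    rw [abs_mul, abs_mul, abs_of_pos hγ0]
    exact mul_le_mul_of_nonneg_left h2 (by positivity)
  have h5 := abs_le.1 h3
  have h6 := abs_le.1 h4
  have h7 := le_abs_self C
  constructor
  · have e : bd (x - η) n = bd (x - η) n := rfl
    have : α * Real.log N + x * (γ * u) - (α * Real.log n + (x - η) * (γ * v))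
        = α * (Real.log N - Real.log n) + x * γ * (u - v) + v * (η * γ) := by ring
    linarith [h5.1, h6.1]
  · have : α * Real.log n + (x + η) * (γ * v) - (α * Real.log N + x * (γ * u))
        = -(α * (Real.log N - Real.log n)) - x * γ * (u - v) + v * (η * γ) := by ring
    linarith [h5.2, h6.2]

/-- the one dimensional law -/
theorem lawE : ∃ δ : ℝ, 0 < δ ∧ δ ≤ 1 ∧ (δ = 1 ↔ ∀ n : ℕ, 1 ≤ n → ∃ k : ℕ, Tn^[k] n = 1) ∧
    Dn (fun n => ∃ k : ℕ, Tn^[k] n = 1) δ ∧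
    ∀ (m : ℕ) (a : ℤ), 1 ≤ m → ∀ x : ℝ, Dn (fun n => EB m a (bd x n) n) (δ * Phi x / m) := by
  obtain ⟨δ, h0, h1, h2, h3, h4⟩ := law_one
  refine ⟨δ, h0, h1, h2, h3, fun m a hm x => ?_⟩
  have hm0 : (0 : ℝ) < m := by exact_mod_cast hm
  have h5 := Dn_sum (range m) (fun b n => ∃ k : ℕ, (k : ℝ) ≤ 2 / Real.log (4 / 3) * Real.log n
          + x * (Real.log 3 * Real.sqrt (2 * Real.log n / Real.log (4 / 3) ^ 3)) ∧
        (Tn^[k] n = 1 ∧ ∀ i < k, Tn^[i] n ≠ 1) ∧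
        (k : ℤ) ≡ a [ZMOD m] ∧ (odn k n : ℤ) ≡ (b : ℤ) [ZMOD m])
      (fun _ => δ * ProbabilityTheory.cdf (ProbabilityTheory.gaussianReal 0 1) x / m ^ 2)
      (fun b _ => (h4 m a b hm).2 x) (by
    rintro n b hb b' hb' ⟨k, -, hk, -, hk2⟩ ⟨k', -, hk', -, hk2'⟩
    have e : k = k' := TS_unique hk hk'
    subst e
    have h6 : (b : ℤ) ≡ (b' : ℤ) [ZMOD m] := hk2.symm.trans hk2'
    rw [mem_range] at hb hb'
    unfold Int.ModEq at h6
    rw [Int.emod_eq_of_lt (by omega) (by omega), Int.emod_eq_of_lt (by omega) (by omega)] at h6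
    exact_mod_cast h6)
  rw [sum_const, card_range, nsmul_eq_mul, ← phi_cdf] at h5
  have e : (m : ℝ) * (δ * Phi x / m ^ 2) = δ * Phi x / m := by field_simp
  rw [e] at h5
  refine Dn_iff (fun n _ => ?_) h5
  constructor
  · rintro ⟨b, -, k, hk1, hk2, hk3, -⟩
    exact ⟨k, hk1, hk2, hk3⟩
  · rintro ⟨k, hk1, hk2, hk3⟩
    refine ⟨odn k n % m, mem_range.2 (Nat.mod_lt _ (by omega)), k, hk1, hk2, hk3, ?_⟩
    unfold Int.ModEq
    push_cast
    rw [Int.emod_emod_of_dvd _ dvd_rfl]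

end Pool.Agent.W36.JL
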