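import Pool.Agent.W36.JL.J7
import Pool.Agent.W36.JL.J5

/-! Local constancy and invariance under the multiplication by three of the level sets. -/

set_option autoImplicit false

namespace Pool.Agent.W36.JL

open Finset Filter Topology Pool.Agent.H320R2.PD
open Pool.Agent.H499R2.ND (Tn Dn cnt cnt_eq cnt_mono cnt_or cnt_small cnt_le Td Phi Phi_mono Phi_continuous Bas)
open Pool.Agent.H499R2.CO (Tz)
open Pool.Agent.W41 (ind)
open Pool.Agent.W41.FU (bal EE ee abel ee_diff ee_norm EE_triv EE_abs EE_res res)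
open Pool.Agent.W36.GU (sum_cast Hyp Dil win psi psi_int)

section hyp

variable {m : ℕ} {a : ℤ} {δ : ℝ}

theorem loc_X (hlaw : ∀ x : ℝ, Dn (fun n => EB m a (bd x n) n) (δ * Phi x / m)) (x : ℝ) {c : ℝ} (h0 : 0 ≤ c) (h1 : c ≤ 1)
    {κ : ℝ} (hκ : 0 < κ) (j : ℕ) : ∃ X0 : ℕ, ∀ X : ℕ, X0 ≤ X →
      ∑ n ∈ Icc (1 : ℤ) X, |bal 1 (SX m a x) c (n + j) - bal 1 (SX m a x) c n| ≤ κ * X := by
  obtain ⟨N1, hN1⟩ := cmpB hlaw x c (show 0 < κ / 5 by positivity)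
  obtain ⟨N2, -, hN2⟩ := locL (show 0 < κ / 5 by positivity) j 1 (by norm_num) (by norm_num) j (by simp)
  refine ⟨N1 + N2 + j, fun X hX => ?_⟩
  have h2 := hN1 (X + j) (by omega)
  have h3 := hN2 X (by omega) _ (gB_same m a h0 h1 (bd x (X + j : ℕ)))
  simp only [one_mul] at h3
  obtain ⟨f, hf⟩ : ∃ f, f = bal 1 (SX m a x) c := ⟨_, rfl⟩
  obtain ⟨g, hg⟩ : ∃ g, g = gB m a c (bd x (X + j : ℕ)) := ⟨_, rfl⟩
  rw [← hf, ← hg] at h2
  rw [← hg] at h3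
  rw [← hf]
  have h4 : ∑ n ∈ Icc (1 : ℤ) X, |f (n + j) - g (n + j)| ≤ ∑ n ∈ Icc (1 : ℤ) ((X + j : ℕ) : ℤ), |f n - g n| :=
    sum_inj (F := fun n => |f n - g n|) (u := fun n => n + j) (fun _ => abs_nonneg _) (add_left_injective _)
      (fun n a1 a2 => by push_cast; constructor <;> omega)
  have h5 : ∑ n ∈ Icc (1 : ℤ) X, |f n - g n| ≤ ∑ n ∈ Icc (1 : ℤ) ((X + j : ℕ) : ℤ), |f n - g n| :=
    sum_inj (F := fun n => |f n - g n|) (u := fun n => n) (fun _ => abs_nonneg _) (fun _ _ h => h)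
      (fun n a1 a2 => by push_cast; constructor <;> omega)
  have h6 : ∑ n ∈ Icc (1 : ℤ) X, |f (n + j) - f n| ≤ ∑ n ∈ Icc (1 : ℤ) X, |f (n + j) - g (n + j)|
      + ∑ n ∈ Icc (1 : ℤ) X, |g (n + j) - g n| + ∑ n ∈ Icc (1 : ℤ) X, |f n - g n| := by
    rw [← sum_add_distrib, ← sum_add_distrib]
    apply sum_le_sum
    intro n _
    have e1 := abs_sub_le (f (n + j)) (g (n + j)) (f n)
    have e2 := abs_sub_le (g (n + j)) (g n) (f n)
    rw [abs_sub_comm (g n) (f n)] at e2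
    linarith
  have h7 : ((X + j : ℕ) : ℝ) ≤ 2 * X := by
    have : X + j ≤ 2 * X := by omega
    exact_mod_cast this
  have h8 : κ / 5 * ((X + j : ℕ) : ℝ) ≤ κ / 5 * (2 * X) := mul_le_mul_of_nonneg_left h7 (by positivity)
  linarith

theorem dil3_X (hlaw : ∀ x : ℝ, Dn (fun n => EB m a (bd x n) n) (δ * Phi x / m)) (x : ℝ) {c : ℝ} (h0 : 0 ≤ c) (h1 : c ≤ 1)
    {κ : ℝ} (hκ : 0 < κ) : ∃ X0 : ℕ, ∀ X : ℕ, X0 ≤ X →
      ∑ n ∈ Icc (1 : ℤ) X, |bal 1 (SX m a x) c ((3 : ℕ) * n) - bal 1 (SX m a x) c n| ≤ κ * X := by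
  obtain ⟨N1, hN1⟩ := cmpB hlaw x c (show 0 < κ / 7 by positivity)
  obtain ⟨N2, hN2⟩ := dil3L (show 0 < κ / 7 by positivity)
  refine ⟨N1 + N2, fun X hX => ?_⟩
  have h2 := hN1 (3 * X) (by omega)
  have h3 := hN2 X (by omega) _ (gB_same m a h0 h1 (bd x (3 * X : ℕ)))
  obtain ⟨f, hf⟩ : ∃ f, f = bal 1 (SX m a x) c := ⟨_, rfl⟩
  obtain ⟨g, hg⟩ : ∃ g, g = gB m a c (bd x (3 * X : ℕ)) := ⟨_, rfl⟩
  rw [← hf, ← hg] at h2
  rw [← hg] at h3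
  rw [← hf]
  have h4 : ∑ n ∈ Icc (1 : ℤ) X, |f (3 * n) - g (3 * n)| ≤ ∑ n ∈ Icc (1 : ℤ) ((3 * X : ℕ) : ℤ), |f n - g n| :=
    sum_inj (F := fun n => |f n - g n|) (u := fun n => 3 * n) (fun _ => abs_nonneg _) (fun a b h => by
      simp only at h; omega)
      (fun n a1 a2 => by push_cast; constructor <;> omega)
  have h5 : ∑ n ∈ Icc (1 : ℤ) X, |f n - g n| ≤ ∑ n ∈ Icc (1 : ℤ) ((3 * X : ℕ) : ℤ), |f n - g n| :=
    sum_inj (F := fun n => |f n - g n|) (u := fun n => n) (fun _ => abs_nonneg _) (fun _ _ h => h)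
      (fun n a1 a2 => by push_cast; constructor <;> omega)
  have h6 : ∑ n ∈ Icc (1 : ℤ) X, |f ((3 : ℕ) * n) - f n| ≤ ∑ n ∈ Icc (1 : ℤ) X, |f (3 * n) - g (3 * n)|
      + ∑ n ∈ Icc (1 : ℤ) X, |g (3 * n) - g n| + ∑ n ∈ Icc (1 : ℤ) X, |f n - g n| := by
    rw [← sum_add_distrib, ← sum_add_distrib]
    apply sum_le_sum
    intro n _
    have e0 : ((3 : ℕ) : ℤ) * n = 3 * n := by push_cast; rfl
    rw [e0]
    have e1 := abs_sub_le (f (3 * n)) (g (3 * n)) (f n)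
    have e2 := abs_sub_le (g (3 * n)) (g n) (f n)
    rw [abs_sub_comm (g n) (f n)] at e2
    linarith
  have h8 : κ / 7 * ((3 * X : ℕ) : ℝ) = 3 * (κ / 7 * X) := by push_cast; ring
  rw [h8] at h2
  linarith

end hyp

end Pool.Agent.W36.JL
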