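import Pool.Agent.W36.JL.J7
import Pool.Agent.W36.JL.J4

/-! Doubling, Fourier coefficients and the class of the level sets. -/

set_option autoImplicit false

namespace Pool.Agent.W36.JL

open Finset Filter Topology Pool.Agent.H320R2.PD
open Pool.Agent.H499R2.ND (Tn Dn cnt cnt_eq cnt_mono cnt_or cnt_small cnt_le Td Phi Phi_mono Phi_continuous Bas)
open Pool.Agent.H499R2.CO (Tz)
open Pool.Agent.W41 (ind)
open Pool.Agent.W41.FU (bal EE ee abel ee_diff ee_norm EE_triv EE_abs EE_res res)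
open Pool.Agent.W36.GU (sum_cast Hyp Dil win psi psi_int)

theorem Tn_two (n : ℕ) : Tn (2 * n) = n := by
  unfold Tn
  rw [if_pos (by omega)]
  omega

theorem TS_two {n t : ℕ} (hn : 1 ≤ n) : TS (2 * n) t ↔ ∃ t', t = t' + 1 ∧ TS n t' := by
  unfold TS
  constructor
  · rintro ⟨h1, h2⟩
    rcases t with _ | t
    · simp at h1
    · refine ⟨t, rfl, ?_, fun i hi => ?_⟩
      · rwa [Function.iterate_succ_apply, Tn_two] at h1
      · have := h2 (i + 1) (by omega)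
        rwa [Function.iterate_succ_apply, Tn_two] at this
  · rintro ⟨t', rfl, h1, h2⟩
    refine ⟨by rwa [Function.iterate_succ_apply, Tn_two], fun i hi => ?_⟩
    rcases i with _ | i
    · simp
    · rw [Function.iterate_succ_apply, Tn_two]
      exact h2 i (by omega)

theorem EB_two {m : ℕ} {a : ℤ} {B : ℝ} {n : ℕ} (hn : 1 ≤ n) : EB m a B (2 * n) ↔ EB m (a - 1) (B - 1) n := by
  unfold EB
  constructor
  · rintro ⟨t, h1, h2, h3⟩
    obtain ⟨t', rfl, h4⟩ := (TS_two hn).1 h2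
    refine ⟨t', by push_cast at h1; linarith, h4, ?_⟩
    have h5 := h3.sub (Int.ModEq.refl 1)
    push_cast at h5
    rwa [add_sub_cancel_right] at h5
  · rintro ⟨t, h1, h2, h3⟩
    refine ⟨t + 1, by push_cast; linarith, (TS_two hn).2 ⟨t, rfl, h2⟩, ?_⟩
    have h5 := h3.add (Int.ModEq.refl 1)
    push_cast
    rwa [sub_add_cancel] at h5

theorem EB_pow {m : ℕ} (e : ℕ) : ∀ {a : ℤ} {B : ℝ} {n : ℕ}, 1 ≤ n → (EB m a B (2 ^ e * n) ↔ EB m (a - e) (B - e) n) := by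
  induction e with
  | zero => intro a B n _; simp
  | succ e ih =>
    intro a B n hn
    have e1 : 2 ^ (e + 1) * n = 2 * (2 ^ e * n) := by rw [pow_succ]; ring
    rw [e1, EB_two (Nat.mul_pos (by positivity) hn), ih hn]
    have e2 : a - 1 - (e : ℤ) = a - ((e + 1 : ℕ) : ℤ) := by push_cast; ring
    have e3 : B - 1 - (e : ℝ) = B - ((e + 1 : ℕ) : ℝ) := by push_cast; ring
    rw [e2, e3]

theorem EB_shift {m : ℕ} {a : ℤ} {B : ℝ} {n : ℕ} : EB m (a - m) B n ↔ EB m a B n := by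
  unfold EB
  refine exists_congr fun t => and_congr_right fun _ => and_congr_right fun _ => ?_
  have h : a - m ≡ a [ZMOD m] := by
    unfold Int.ModEq
    rw [Int.sub_emod_right]
  exact ⟨fun h1 => h1.trans h, fun h1 => h1.trans h.symm⟩

section hyp

variable {m : ℕ} {a : ℤ} {δ : ℝ}

theorem dil2_X (hlaw : ∀ x : ℝ, Dn (fun n => EB m a (bd x n) n) (δ * Phi x / m)) (x c : ℝ)
    {κ : ℝ} (hκ : 0 < κ) : ∃ X0 : ℕ, ∀ X : ℕ, X0 ≤ X →
      ∑ n ∈ Icc (1 : ℤ) X, |bal 1 (SX m a x) c ((2 ^ m : ℕ) * n) - bal 1 (SX m a x) c n| ≤ κ * X := by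
  classical
  obtain ⟨η, hη, N1, h1⟩ := stab hlaw x (show 0 < κ / 2 by positivity)
  obtain ⟨N2, hN2, h2⟩ := bd_near x hη m (m * Real.log 2)
  obtain ⟨N3, hN3⟩ := exists_nat_ge (2 * N2 / κ)
  refine ⟨N1 + N3, fun X hX => ?_⟩
  rw [sum_cast]
  have key : ∀ n ∈ Icc 1 X, |bal 1 (SX m a x) c ((2 ^ m : ℕ) * (n : ℕ)) - bal 1 (SX m a x) c (n : ℕ)|
      ≤ (if (n : ℝ) ≤ N2 then 1 else 0)
        + (if (EB m a (bd (x + η) n) n ∧ ¬ EB m a (bd (x - η) n) n) then 1 else 0) := by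
    intro n hn
    rw [mem_Icc] at hn
    have e0 : ((2 ^ m : ℕ) : ℤ) * ((n : ℕ) : ℤ) = ((2 ^ m * n : ℕ) : ℤ) := by push_cast; ring
    rw [e0, bal_nat m a x c hn.1, bal_nat m a x c (Nat.mul_pos (by positivity) hn.1)]
    have e1 : EB m a (bd x (2 ^ m * n)) (2 ^ m * n) ↔ EB m a (bd x (2 ^ m * n) - m) n := by
      rw [EB_pow m hn.1, EB_shift]
    simp only [e1]
    by_cases h3 : (n : ℝ) ≤ N2
    · rw [if_pos h3]
      have h4 := ite_sub_le (P := EB m a (bd x (2 ^ m * n) - m) n) (Q := EB m a (bd x n) n) (R := True) (fun _ => trivial) c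
      have h5 : (0 : ℝ) ≤ (if (EB m a (bd (x + η) n) n ∧ ¬ EB m a (bd (x - η) n) n) then 1 else 0) := by
        split_ifs <;> norm_num
      rw [if_pos trivial] at h4
      linarith
    · rw [if_neg h3, zero_add]
      push Not at h3
      have hn2 : N2 ≤ n := by exact_mod_cast h3.le
      have hnp : (0 : ℝ) < n := by exact_mod_cast hn.1
      have h2m : (1 : ℕ) ≤ 2 ^ m := Nat.one_le_two_pow
      have h4 : |Real.log ((2 ^ m * n : ℕ) : ℝ) - Real.log n| ≤ m * Real.log 2 := by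
        push_cast
        rw [Real.log_mul (by positivity) hnp.ne', Real.log_pow, add_sub_cancel_right, abs_of_nonneg]
        have := Real.log_two_gt_d9
        positivity
      have h5 := h2 n (2 ^ m * n) hn2 (by nlinarith) h4
      have hm0 : (0 : ℝ) ≤ m := Nat.cast_nonneg _
      exact ite_sub_le (fun h => EB_sand (by linarith [h5.1]) (by linarith [h5.2]) (bd_mono (by linarith) n) (bd_mono (by linarith) n) h) c
  refine (sum_le_sum key).trans ?_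
  rw [sum_add_distrib]
  have e1 : ∑ n ∈ Icc 1 X, (if (n : ℝ) ≤ N2 then (1 : ℝ) else 0) = cnt (fun n => (n : ℝ) ≤ N2) X := by
    rw [cnt_eq, Finset.sum_boole]
  have e2 : ∑ n ∈ Icc 1 X, (if (EB m a (bd (x + η) n) n ∧ ¬ EB m a (bd (x - η) n) n) then (1 : ℝ) else 0)
      = cnt (fun n => EB m a (bd (x + η) n) n ∧ ¬ EB m a (bd (x - η) n) n) X := by
    rw [cnt_eq, Finset.sum_boole]
  rw [e1, e2]
  have h6 := cnt_small (show (0 : ℝ) ≤ N2 by positivity) X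
  have h7 := h1 X (by omega)
  have h8 : 2 * (N2 : ℝ) / κ ≤ X := hN3.trans (by exact_mod_cast (by omega : N3 ≤ X))
  rw [div_le_iff₀ hκ] at h8
  linarith

/-- partial sums -/
theorem part_X (hlaw : ∀ x : ℝ, Dn (fun n => EB m a (bd x n) n) (δ * Phi x / m)) (x : ℝ) {κ : ℝ} (hκ : 0 < κ) :
    ∃ n0 : ℕ, ∀ n : ℕ, n0 ≤ n → |∑ l ∈ Icc 1 n, bal 1 (SX m a x) (δ * Phi x / m) (l : ℕ)| ≤ κ * n := by
  classical
  have h1 := Metric.tendsto_atTop.1 (hlaw x) κ hκ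
  obtain ⟨n0, h1⟩ := h1
  refine ⟨n0 + 1, fun n hn => ?_⟩
  have h2 := h1 n (by omega)
  have hn : (0 : ℝ) < n := by exact_mod_cast (by omega : 0 < n)
  have e : ∑ l ∈ Icc 1 n, bal 1 (SX m a x) (δ * Phi x / m) (l : ℕ)
      = (cnt (fun n => EB m a (bd x n) n) n / n - δ * Phi x / m) * n := by
    have e1 : ∑ l ∈ Icc 1 n, bal 1 (SX m a x) (δ * Phi x / m) (l : ℕ)
        = ∑ l ∈ Icc 1 n, ((if EB m a (bd x l) l then (1 : ℝ) else 0) - δ * Phi x / m) := by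
      apply sum_congr rfl
      intro l hl
      rw [mem_Icc] at hl
      exact bal_nat m a x _ hl.1
    rw [e1, sum_sub_distrib, Finset.sum_boole, ← cnt_eq, sum_const, Nat.card_Icc, Nat.add_sub_cancel, nsmul_eq_mul]
    field_simp
  rw [e, abs_mul, abs_of_pos hn]
  rw [Real.dist_eq] at h2
  exact mul_le_mul_of_nonneg_right h2.le hn.le

theorem bal_abs' (S : Set ℤ) {c : ℝ} (h0 : 0 ≤ c) (h1 : c ≤ 1) (x : ℤ) : |bal 1 S c x| ≤ 1 :=
  Pool.Agent.W41.FU.bal_abs h0 h1 x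

/-- small frequencies -/
theorem small_X (hlaw : ∀ x : ℝ, Dn (fun n => EB m a (bd x n) n) (δ * Phi x / m)) (x : ℝ) (h0 : 0 ≤ δ * Phi x / m) (h1 : δ * Phi x / m ≤ 1)
    {ε : ℝ} (hε : 0 < ε) {C : ℝ} (hC : 1 ≤ C) : ∃ N0 : ℕ, 1 ≤ N0 ∧
    ∀ N : ℕ, N0 ≤ N → ∀ α : ℝ, |α| * N ≤ C → ‖EE (bal 1 (SX m a x) (δ * Phi x / m)) N α‖ ≤ ε * N := by
  set K : ℝ := 1 + 2 * Real.pi * C with hK
  have hKp : 0 < K := by positivity
  obtain ⟨n0, h⟩ := part_X hlaw x (show 0 < ε / (2 * K) by positivity)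
  obtain ⟨n1, hn1⟩ := exists_nat_ge (2 * K * n0 / ε)
  refine ⟨n0 + n1 + 1, by omega, fun N hN α hα => ?_⟩
  have hN1 : (0 : ℝ) < N := by exact_mod_cast (by omega : 0 < N)
  obtain ⟨f, hf⟩ : ∃ f, f = bal 1 (SX m a x) (δ * Phi x / m) := ⟨_, rfl⟩
  have hf1 : ∀ n, |f n| ≤ 1 := by rw [hf]; exact bal_abs' _ h0 h1
  rw [← hf] at h ⊢
  have hb : ∀ n : ℕ, n ≤ N → |∑ l ∈ Icc 1 n, f (l : ℕ)| ≤ ε / (2 * K) * N + n0 := by
    intro n hn
    rcases le_or_gt n0 n with h1 | h1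
    · refine (h n h1).trans ?_
      have : (n : ℝ) ≤ N := by exact_mod_cast hn
      have h2 : ε / (2 * K) * n ≤ ε / (2 * K) * N := mul_le_mul_of_nonneg_left this (by positivity)
      have h3 : (0 : ℝ) ≤ n0 := Nat.cast_nonneg _
      linarith
    · have h2 : |∑ l ∈ Icc 1 n, f (l : ℕ)| ≤ n := by
        refine (abs_sum_le_sum_abs _ _).trans ?_
        refine (sum_le_card_nsmul _ _ 1 (fun l _ => hf1 _)).trans ?_
        rw [Nat.card_Icc, Nat.add_sub_cancel, nsmul_eq_mul, mul_one]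
      have h6 : (n : ℝ) ≤ n0 := by exact_mod_cast h1.le
      have h7 : 0 ≤ ε / (2 * K) * N := by positivity
      linarith
  set B : ℝ := ε / (2 * K) * N + n0 with hB
  have hB0 : 0 ≤ B := by positivity
  rw [abel]
  refine (norm_sub_le _ _).trans ?_
  have e1 : ‖((∑ n ∈ Icc 1 N, f (n : ℕ) : ℝ) : ℂ) * ee α (N + 1)‖ ≤ B := by
    rw [norm_mul, ee_norm, mul_one, Complex.norm_real, Real.norm_eq_abs]
    exact hb N le_rfl
  have e2 : ‖∑ n ∈ Icc 1 N, ((∑ m ∈ Icc 1 n, f (m : ℕ) : ℝ) : ℂ) * (ee α ((n : ℕ) + 1) - ee α (n : ℕ))‖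
      ≤ 2 * Real.pi * C * B := by
    refine (norm_sum_le _ _).trans ?_
    have h1 : ∀ n ∈ Icc 1 N, ‖((∑ m ∈ Icc 1 n, f (m : ℕ) : ℝ) : ℂ) * (ee α ((n : ℕ) + 1) - ee α (n : ℕ))‖
        ≤ B * (2 * Real.pi * |α|) := by
      intro n hn
      rw [norm_mul, Complex.norm_real, Real.norm_eq_abs]
      exact mul_le_mul (hb n (mem_Icc.1 hn).2) (ee_diff α n) (norm_nonneg _) hB0
    refine (sum_le_sum h1).trans ?_
    rw [sum_const, Nat.card_Icc, Nat.add_sub_cancel, nsmul_eq_mul]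
    calc (N : ℝ) * (B * (2 * Real.pi * |α|)) = 2 * Real.pi * B * (|α| * N) := by ring
      _ ≤ 2 * Real.pi * B * C := mul_le_mul_of_nonneg_left hα (by positivity)
      _ = _ := by ring
  have e3 : K * B ≤ ε * N := by
    have h1 : K * (ε / (2 * K) * N) = ε / 2 * N := by field_simp
    have h2 : 2 * K * n0 / ε ≤ N := hn1.trans (by exact_mod_cast (by omega : n1 ≤ N))
    rw [div_le_iff₀ hε] at h2
    rw [hB, mul_add, h1]
    linarith
  have e4 : B + 2 * Real.pi * C * B = K * B := by rw [hK]; ring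
  linarith

theorem EE_cmp (f g : ℤ → ℝ) (N : ℕ) (α : ℝ) : ‖EE f N α‖ ≤ ‖EE g N α‖ + ∑ n ∈ Icc (1 : ℤ) N, |f n - g n| := by
  have h1 : EE f N α = EE g N α + ∑ n ∈ Icc 1 N, ((f (n : ℕ) - g (n : ℕ) : ℝ) : ℂ) * ee α (n : ℕ) := by
    unfold EE
    rw [← sum_add_distrib]
    apply sum_congr rfl
    intro n _
    push_cast
    ring
  rw [h1, sum_cast]
  refine (norm_add_le _ _).trans ?_
  apply add_le_add_right
  refine (norm_sum_le _ _).trans ?_
  apply sum_le_sum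
  intro n _
  rw [norm_mul, ee_norm, mul_one, Complex.norm_real, Real.norm_eq_abs]

/-- all frequencies -/
theorem fou_all (hlaw : ∀ x : ℝ, Dn (fun n => EB m a (bd x n) n) (δ * Phi x / m)) (x : ℝ) (h0 : 0 ≤ δ * Phi x / m) (h1 : δ * Phi x / m ≤ 1)
    {ε : ℝ} (hε : 0 < ε) (hε1 : ε ≤ 1) : ∃ N0 : ℕ, 1 ≤ N0 ∧
    ∀ N : ℕ, N0 ≤ N → ∀ α : ℝ, ‖EE (bal 1 (SX m a x) (δ * Phi x / m)) N α‖ ≤ ε * N := by
  obtain ⟨C, hC, N1, hN1, hf⟩ := fourierL rfl odd_one isCoprime_one_left (by norm_num) (show 0 < ε / 2 by positivity) (by linarith)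
  obtain ⟨N2, hN2, hs⟩ := small_X hlaw x h0 h1 hε hC
  obtain ⟨N3, hc⟩ := cmpB hlaw x (δ * Phi x / m) (show 0 < ε / 2 by positivity)
  refine ⟨N1 + N2 + N3, by omega, fun N hN α => ?_⟩
  rcases le_or_gt C (|α - round α| * N) with h | h
  · have h3 := hf N (by omega) α h _ (gB_same m a h0 h1 (bd x N))
    have h4 := hc N (by omega)
    have h5 := EE_cmp (bal 1 (SX m a x) (δ * Phi x / m)) (gB m a (δ * Phi x / m) (bd x N)) N α
    linarith
  · rw [EE_abs]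
    apply hs N (by omega)
    rw [abs_abs]
    exact h.le

theorem fou_X (hlaw : ∀ x : ℝ, Dn (fun n => EB m a (bd x n) n) (δ * Phi x / m)) (x : ℝ) (h0 : 0 ≤ δ * Phi x / m) (h1 : δ * Phi x / m ≤ 1)
    {κ : ℝ} (hκ : 0 < κ) : ∃ X0 : ℕ, ∀ X : ℕ, X0 ≤ X → ∀ M N : ℕ, M ≤ N → N ≤ X →
    ∀ (p : ℕ) [NeZero p] (ζ : ZMod p), ‖∑ n ∈ Icc (1 : ℤ) X, (win M N (bal 1 (SX m a x) (δ * Phi x / m)) n : ℂ) * psi p (ζ * n)‖ ≤ κ * X := by
  obtain ⟨ε, hε⟩ : ∃ ε, ε = min κ 1 := ⟨_, rfl⟩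
  have hε0 : 0 < ε := by rw [hε]; exact lt_min hκ one_pos
  have hε1 : ε ≤ 1 := by rw [hε]; exact min_le_right _ _
  have hεκ : ε ≤ κ := by rw [hε]; exact min_le_left _ _
  obtain ⟨n0, hn0, h⟩ := fou_all hlaw x h0 h1 (show 0 < ε / 2 by positivity) (by linarith)
  obtain ⟨n1, hn1⟩ := exists_nat_ge (2 * n0 / ε)
  refine ⟨n0 + n1, fun X hX M N hMN hN p hp ζ => ?_⟩
  obtain ⟨f, hf⟩ : ∃ f, f = bal 1 (SX m a x) (δ * Phi x / m) := ⟨_, rfl⟩
  have hf1 : ∀ n, |f n| ≤ 1 := by rw [hf]; exact bal_abs' _ h0 h1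
  rw [← hf] at h ⊢
  have hb : ∀ n : ℕ, n ≤ X → ∀ α : ℝ, ‖EE f n α‖ ≤ ε / 2 * X := by
    intro n hn α
    rcases le_or_gt n0 n with h1 | h1
    · refine (h n h1 α).trans ?_
      have : (n : ℝ) ≤ X := by exact_mod_cast hn
      exact mul_le_mul_of_nonneg_left this (by positivity)
    · refine (EE_triv hf1 n α).trans ?_
      have h2 : 2 * n0 / ε ≤ X := hn1.trans (by exact_mod_cast (by omega : n1 ≤ X))
      rw [div_le_iff₀ hε0] at h2
      have h3 : (n : ℝ) ≤ n0 := by exact_mod_cast h1.le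
      linarith
  have e1 : ∑ n ∈ Icc (1 : ℤ) X, (win M N f n : ℂ) * psi p (ζ * n) = EE (res M N f) X ((ζ.val : ℝ) / p) := by
    rw [sum_cast]
    unfold EE
    apply sum_congr rfl
    intro n _
    have e2 : psi p (ζ * ((n : ℕ) : ℤ)) = ee ((ζ.val : ℝ) / p) (n : ℕ) := by
      have e3 : ζ * (((n : ℕ) : ℤ) : ZMod p) = (((ζ.val : ℤ) * (n : ℕ) : ℤ) : ZMod p) := by
        push_cast
        rw [ZMod.natCast_zmod_val]
      rw [e3, psi_int]
      unfold ee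
      congr 1
      push_cast
      ring
    rw [e2]
    rfl
  rw [e1, EE_res _ hMN hN]
  refine (norm_sub_le _ _).trans ?_
  have h3 := hb N hN ((ζ.val : ℝ) / p)
  have h4 := hb M (hMN.trans hN) ((ζ.val : ℝ) / p)
  have h5 : ε * X ≤ κ * X := mul_le_mul_of_nonneg_right hεκ (Nat.cast_nonneg _)
  linarith

end hyp

end Pool.Agent.W36.JL
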