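import Pool.Agent.W36.JL.J8
import Pool.Agent.W36.JL.J7A
import Pool.Agent.W36.GK.K21
import Pool.Agent.W36.GK.K20

/-! The joint law of the total stopping times. -/

set_option autoImplicit false

namespace Pool.Agent.W36.JL

open Finset Filter Topology Pool.Agent.H320R2.PD
open Pool.Agent.H499R2.ND (Tn Dn cnt Td Phi Phi_mono Phi_continuous Bas)
open Pool.Agent.W41 (ind ind_nonneg ind_le_one)
open Pool.Agent.W41.FU (bal)
open Pool.Agent.W36.GU (sum_cast Hyp Dil win psi psi_int win_abs win_sup pow_ne Sup)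
open Pool.Agent.W36.GK (Sm GN_all Indep forms_count Cn Cn_eq box dot)
open Pool.Agent.W36.GV (GN B1)

theorem Phi_le_one (x : ℝ) : Phi x ≤ 1 := by
  unfold Pool.Agent.H499R2.ND.Phi
  exact MeasureTheory.measureReal_le_one

theorem Phi_nonneg (x : ℝ) : 0 ≤ Phi x := by
  unfold Pool.Agent.H499R2.ND.Phi
  exact MeasureTheory.measureReal_nonneg

theorem dens_mem {δ : ℝ} (h0 : 0 < δ) (h1 : δ ≤ 1) {m : ℕ} (hm : 1 ≤ m) (x : ℝ) : 0 ≤ δ * Phi x / m ∧ δ * Phi x / m ≤ 1 := by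
  have h2 := Phi_nonneg x
  have h3 := Phi_le_one x
  have hm1 : (1 : ℝ) ≤ m := by exact_mod_cast hm
  constructor
  · positivity
  · rw [div_le_one (by linarith)]
    nlinarith

/-- choice of a common bound -/
theorem common {r : ℕ} {P : Fin r → ℕ → Prop} (h : ∀ i, ∃ X0 : ℕ, ∀ X : ℕ, X0 ≤ X → P i X) :
    ∃ X0 : ℕ, ∀ X : ℕ, X0 ≤ X → ∀ i, P i X := by
  choose X0 h using h
  exact ⟨∑ i, X0 i, fun X hX i => h i X ((single_le_sum (f := X0) (fun _ _ => Nat.zero_le _) (mem_univ i)).trans hX)⟩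

/-- the balanced functions of finitely many level sets -/
def FF {r : ℕ} (δ : ℝ) (m : ℕ) (a : Fin r → ℤ) (x : Fin r → ℝ) : Set (ℤ → ℝ) :=
  Set.range (fun i => bal 1 (SX m (a i) (x i)) (δ * Phi (x i) / m))

theorem FF_hyp {r : ℕ} {δ : ℝ} (h0 : 0 < δ) (h1 : δ ≤ 1) {m : ℕ} (hm : 1 ≤ m) (a : Fin r → ℤ) (x : Fin r → ℝ)
    (hlaw : ∀ a : ℤ, ∀ x : ℝ, Dn (fun n => EB m a (bd x n) n) (δ * Phi x / m)) : Hyp (FF δ m a x) (2 ^ m) 3 where
  abs := by
    rintro _ ⟨i, rfl⟩ n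
    exact bal_abs' _ (dens_mem h0 h1 hm _).1 (dens_mem h0 h1 hm _).2 n
  loc := by
    intro κ hκ j
    obtain ⟨X0, h⟩ := common (fun i => loc_X (hlaw (a i)) (x i) (dens_mem h0 h1 hm (x i)).1 (dens_mem h0 h1 hm (x i)).2 hκ j)
    refine ⟨X0, fun X hX f hf => ?_⟩
    obtain ⟨i, rfl⟩ := hf
    exact h X hX i
  dilA := by
    intro κ hκ
    obtain ⟨X0, h⟩ := common (fun i => dil2_X (hlaw (a i)) (x i) (δ * Phi (x i) / m) hκ)
    refine ⟨X0, fun X hX f hf => ?_⟩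
    obtain ⟨i, rfl⟩ := hf
    exact h X hX i
  dilB := by
    intro κ hκ
    obtain ⟨X0, h⟩ := common (fun i => dil3_X (hlaw (a i)) (x i) (dens_mem h0 h1 hm (x i)).1 (dens_mem h0 h1 hm (x i)).2 hκ)
    refine ⟨X0, fun X hX f hf => ?_⟩
    obtain ⟨i, rfl⟩ := hf
    exact h X hX i
  two_leA := by
    calc 2 = 2 ^ 1 := by norm_num
      _ ≤ 2 ^ m := Nat.pow_le_pow_right (by norm_num) hm
  two_leB := by norm_num
  ind := by
    intro k j hk hj
    rw [← pow_mul]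
    exact pow_ne (m * k) j (Nat.mul_pos hm hk) hj
  fou := by
    intro κ hκ
    obtain ⟨X0, h⟩ := common (fun i => fou_X (hlaw (a i)) (x i) (dens_mem h0 h1 hm (x i)).1 (dens_mem h0 h1 hm (x i)).2 hκ)
    refine ⟨X0, fun X hX f hf M N hMN hN p hp ζ => ?_⟩
    obtain ⟨i, rfl⟩ := hf
    exact h X hX i M N hMN hN p ζ

/-- counting points with values in given sets whose balanced functions belong to a class with small norms -/
theorem countG {D r : ℕ} {F : Set (ℤ → ℝ)} (hsm : Sm (r + 1) F) (Λ : Fin r → Fin D → ℤ) (h0 : ∀ i, Λ i ≠ 0)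
    (hΛ : ∀ i j, i ≠ j → Indep (Λ i) (Λ j)) (S : Fin r → Set ℤ) (δ : Fin r → ℝ) (hd : ∀ i, 0 ≤ δ i ∧ δ i ≤ 1)
    (hmem : ∀ i, bal 1 (S i) (δ i) ∈ F) {ε : ℝ} (hε : 0 < ε) :
    ∃ X0 : ℕ, ∀ X : ℕ, X0 ≤ X →
      ∀ c : Fin r → ℤ, ∀ M N : Fin r → ℕ, (∀ i, M i ≤ N i) → (∀ i, N i ≤ X) → ∀ P P' : Fin D → ℤ, (∀ j, P' j - P j ≤ X) →
      |(Cn Λ c (fun _ => 1) M N P P' S : ℝ) - (∏ i, δ i) * Cn Λ c (fun _ => 1) M N P P' (fun _ => Set.univ)| ≤ ε * (X : ℝ) ^ D := by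
  classical
  obtain ⟨η, hη, X1, h⟩ := forms_count Λ h0 hΛ hε
  obtain ⟨X2, h2⟩ := hsm η hη
  refine ⟨X1 + X2, fun X hX c M N hM hN P P' hP => ?_⟩
  rw [Cn_eq Λ c (fun _ => Or.inl rfl), Cn_eq Λ c (fun _ => Or.inl rfl)]
  have hind1 : ∀ (s : ℤ) (T : Set ℤ) (n : ℤ), |ind s T n| ≤ 1 := by
    intro s T n
    rw [abs_of_nonneg (ind_nonneg _ _ _)]
    exact ind_le_one _ _ _
  simp only [one_mul]
  have e1 : (∏ i, δ i) * ∑ x ∈ box P P', ∏ i, win (M i) (N i) (ind 1 Set.univ) (dot (Λ i) x + c i)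
      = ∑ x ∈ box P P', ∏ i, (fun n => δ i * win (M i) (N i) (ind 1 Set.univ) n) (dot (Λ i) x + c i) := by
    rw [mul_sum]
    apply sum_congr rfl; intro x _
    rw [prod_mul_distrib]
  rw [e1]
  have e2 : ∀ i, (fun n => win (M i) (N i) (ind 1 (S i)) n - δ i * win (M i) (N i) (ind 1 Set.univ) n)
      = win (M i) (N i) (bal 1 (S i) (δ i)) := by
    intro i
    ext n
    unfold win Pool.Agent.W41.FU.bal
    have : ind 1 Set.univ n = 1 := by unfold Pool.Agent.W41.ind; simp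
    rw [this]
    split_ifs <;> ring
  have hB : ∀ i, ∀ n, |bal 1 (S i) (δ i) n| ≤ 1 := fun i n => bal_abs' _ (hd i).1 (hd i).2 n
  refine h X (by omega) c P P' hP (fun i => win (M i) (N i) (ind 1 (S i)))
    (fun i n => δ i * win (M i) (N i) (ind 1 Set.univ) n) (fun i => win_abs (hind1 _ _) _ _) ?_ ?_ ?_ ?_
  · intro i n
    rw [abs_mul, abs_of_nonneg (hd i).1]
    exact mul_le_one₀ (hd i).2 (abs_nonneg _) (win_abs (hind1 _ _) _ _ _)
  · intro i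
    rw [e2]
    exact win_abs (hB i) _ _
  · intro i
    rw [e2]
    exact win_sup _ _ (hN i)
  · intro i
    rw [e2]
    exact h2 X (by omega) _ (hmem i) _ _ (hM i) (hN i)

end Pool.Agent.W36.JL
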