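import Pool.Agent.W36.JL.K1
import Pool.Agent.W36.JL.J9

/-! The level sets of the total stopping time on the points that survive a sieve. -/

set_option autoImplicit false

namespace Pool.Agent.W36.JL

open Finset Filter Topology Pool.Agent.H320R2.PD
open Pool.Agent.H499R2.ND (Tn Dn cnt cnt_eq cnt_mono cnt_or cnt_small cnt_le Td Phi)
open Pool.Agent.H499R2.CO (Tz)
open Pool.Agent.W36.GK (box dot Indep box_fiber mem_box Cn)
open Pool.Agent.W36.GS (pts sgq VV VV_nonneg sgq_nonneg sum_bi_le sum_un_le pts_card)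

/-- the comparison for the map `T` -/
theorem cmpS {D r κ : ℕ} {Λ : Fin r → Fin (D + 1) → ℤ} (h0 : ∀ i, Λ i ≠ 0) {ε : ℝ} (hε : 0 < ε) :
    ∃ θ : ℝ, 0 < θ ∧ ∃ N0 : ℕ, ∀ N : ℕ, N0 ≤ N → ∀ Q : Finset ℕ, (∀ p ∈ Q, p.Prime ∧ (p : ℝ) ≤ (N : ℝ) ^ θ) →
    ∀ Ω : (p : ℕ) → Set (Fin (D + 1) → ZMod p), (∀ p ∈ Q, (Ω p).ncard * p ≤ κ * p ^ (D + 1)) →
    ∀ qq : ℕ, qq % 2 = 1 → (qq : ℝ) ≤ (N : ℝ) ^ θ → (∀ p ∈ Q, ¬ p ∣ qq) → ∀ ρ : Fin (D + 1) → ZMod qq,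
    ∀ S : Fin r → Set ℤ, ∀ c : Fin r → ℤ, ∀ M N' : Fin r → ℕ, (∀ i, Coal 1 1 (M i) (Nat.log 4 N) (S i)) → (∀ i, M i ≤ N' i) →
    ∀ P P' : Fin (D + 1) → ℤ, (∀ j, P' j - P j ≤ N) →
    |∑ x ∈ pts Λ c (fun _ => 1) M N' P P' S, sgq qq ρ Q Ω x - VV Q Ω / (qq : ℝ) ^ (D + 1) * (pts Λ c (fun _ => 1) M N' P P' S).card| ≤
      ε * (VV Q Ω / (qq : ℝ) ^ (D + 1)) * (N : ℝ) ^ (D + 1) := by
  obtain ⟨θ, hθ, N0, h⟩ := cmp_parqL (κ := κ) h0 (s := fun _ => 1) (fun _ => Or.inl rfl) hε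
  refine ⟨θ, hθ, N0 + 1, fun N hN Q hQ Ω hΩ qq hq1 hq2 hq3 ρ S c M N' hS hMN P P' hP => ?_⟩
  have hN1 : (1 : ℝ) ≤ N := by exact_mod_cast (by omega : 1 ≤ N)
  have h1 := h N (by omega) Q hQ Ω hΩ qq hq1 hq2 hq3 ρ 1 (by norm_num) (by rw [Nat.cast_one]; exact Real.one_le_rpow hN1 hθ.le)
    (fun _ => 1) (fun _ => one_dvd _) S c M N' hS hMN P P' hP
  simp only [Nat.cast_one, one_smul] at h1
  refine h1.trans ?_
  have h2 := VV_nonneg (fun p hp => (hQ p hp).1) Ω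
  have h3 : 0 ≤ (VV Q Ω / (qq : ℝ) ^ (D + 1)) * (N : ℝ) ^ (D + 1) := by positivity
  rw [mul_assoc, mul_assoc]
  exact mul_le_mul_of_nonneg_right (by linarith) h3

theorem coal_univ (d s M : ℤ) (k : ℕ) : Coal d s M k Set.univ := fun _ _ _ _ _ _ _ => by simp

theorem coal_of {m : ℕ} {a : ℤ} {k : ℕ} {M : ℤ} (hM : (2 : ℤ) ^ k ≤ M) {S : Set ℤ} {R : (ℝ → Prop) → Prop}
    (hS : ∀ n : ℤ, 0 < n → (n ∈ S ↔ R (fun B => EB m a B n.toNat))) : Coal 1 1 M k S := by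
  intro l hl x y hx hy h
  rw [one_mul] at hx hy
  have h2l : (2 : ℤ) ^ l ≤ 2 ^ k := pow_le_pow_right₀ (by norm_num) hl
  have h2j : (0 : ℤ) < 2 ^ l := by positivity
  have hx0 : 0 < x := by linarith
  have hy0 : 0 < y := by linarith
  obtain ⟨x', rfl⟩ := Int.eq_ofNat_of_zero_le hx0.le
  obtain ⟨y', rfl⟩ := Int.eq_ofNat_of_zero_le hy0.le
  have hx' : 2 ^ l < x' := by
    have : (2 : ℤ) ^ l < x' := by linarith
    exact_mod_cast this
  have hy' : 2 ^ l < y' := by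
    have : (2 : ℤ) ^ l < y' := by linarith
    exact_mod_cast this
  have e1 : (Tz 1)^[l] (x' : ℤ) = ((Tn^[l] x' : ℕ) : ℤ) := Pool.Agent.H499R2.LT.Td_nat l x'
  have e2 : (Tz 1)^[l] (y' : ℤ) = ((Tn^[l] y' : ℕ) : ℤ) := Pool.Agent.H499R2.LT.Td_nat l y'
  rw [e1, e2] at h
  have h3 : Tn^[l] x' = Tn^[l] y' := by exact_mod_cast h
  rw [hS _ hx0, hS _ hy0]
  have h4 : (fun B => EB m a B (x' : ℤ).toNat) = (fun B => EB m a B (y' : ℤ).toNat) := by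
    funext B
    rw [Int.toNat_natCast, Int.toNat_natCast]
    exact propext (EB_coal hx' hy' h3)
  rw [h4]

/-- fixed threshold -/
def SB (m : ℕ) (a : ℤ) (B : ℝ) : Set ℤ := {n | 0 < n ∧ EB m a B n.toNat}

/-- near the threshold -/
def ZB (m : ℕ) (a : ℤ) (U L : ℝ) : Set ℤ := {n | 0 < n ∧ EB m a U n.toNat ∧ ¬ EB m a L n.toNat}

theorem SB_coal {m : ℕ} {a : ℤ} {k : ℕ} {M : ℤ} (hM : (2 : ℤ) ^ k ≤ M) (B : ℝ) : Coal 1 1 M k (SB m a B) :=
  coal_of (m := m) (a := a) hM (R := fun f => f B) (fun n hn => by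
    unfold SB
    rw [Set.mem_ofPred_eq]
    exact ⟨fun h => h.2, fun h => ⟨hn, h⟩⟩)

theorem ZB_coal {m : ℕ} {a : ℤ} {k : ℕ} {M : ℤ} (hM : (2 : ℤ) ^ k ≤ M) (U L : ℝ) : Coal 1 1 M k (ZB m a U L) :=
  coal_of (m := m) (a := a) hM (R := fun f => f U ∧ ¬ f L) (fun n hn => by
    unfold ZB
    rw [Set.mem_ofPred_eq]
    exact ⟨fun h => h.2, fun h => ⟨hn, h⟩⟩)

open Classical in
theorem fib {D N : ℕ} {P P' : Fin (D + 1) → ℤ} (hP : ∀ j, P' j - P j ≤ N) {b : Fin (D + 1) → ℤ} (hb : b ≠ 0) (c : ℤ) (Z : Finset ℤ) :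
    ((box P P').filter (fun x => dot b x + c ∈ Z)).card ≤ Z.card * N ^ D := by
  have h1 : (box P P').filter (fun x => dot b x + c ∈ Z) ⊆ Z.biUnion (fun y => (box P P').filter (fun x => dot b x = y - c)) := by
    intro x hx
    rw [mem_filter] at hx
    rw [mem_biUnion]
    exact ⟨dot b x + c, hx.2, by rw [mem_filter]; exact ⟨hx.1, by ring⟩⟩
  refine (card_le_card h1).trans (card_biUnion_le.trans ?_)
  refine (sum_le_card_nsmul _ _ (N ^ D) (fun y _ => box_fiber hP hb _)).trans ?_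
  rw [smul_eq_mul]

theorem iff_i {v : ℤ} {M N' M0 N : ℕ} (hN' : N' ≤ N) {A B : Set ℤ} (hE : ¬ (0 < v ∧ v ≤ M0))
    (hF : (M0 : ℤ) < v → v ≤ N → (v ∈ A ↔ v ∈ B)) :
    (v ∈ A ∧ (M : ℤ) < v ∧ v ≤ N') ↔ (v ∈ B ∧ ((max M M0 : ℕ) : ℤ) < v ∧ v ≤ ((max N' M0 : ℕ) : ℤ)) := by
  rcases le_or_gt v 0 with h0 | h0
  · constructor
    · rintro ⟨_, h1, _⟩; omega
    · rintro ⟨_, h1, _⟩; omega
  · have h1 : (M0 : ℤ) < v := by
      by_contra h
      exact hE ⟨h0, by omega⟩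
    have e1 : ((max M M0 : ℕ) : ℤ) < v ↔ (M : ℤ) < v := by omega
    have e2 : v ≤ ((max N' M0 : ℕ) : ℤ) ↔ v ≤ N' := by omega
    rw [e1, e2]
    constructor
    · rintro ⟨h2, h3, h4⟩
      exact ⟨(hF h1 (by omega)).1 h2, h3, h4⟩
    · rintro ⟨h2, h3, h4⟩
      exact ⟨(hF h1 (by omega)).2 h2, h3, h4⟩

theorem sum_symm {α : Type} [DecidableEq α] {w : α → ℝ} (hw : ∀ x, 0 ≤ w x) (A B E : Finset α) (hA : ∀ x ∈ A, x ∉ E → x ∈ B)
    (hB : ∀ x ∈ B, x ∉ E → x ∈ A) : |∑ x ∈ A, w x - ∑ x ∈ B, w x| ≤ ∑ x ∈ E, w x := by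
  have key : ∀ A B : Finset α, (∀ x ∈ A, x ∉ E → x ∈ B) → ∑ x ∈ A, w x ≤ ∑ x ∈ B, w x + ∑ x ∈ E, w x := by
    intro A B h
    have h1 : A ⊆ B ∪ E := by
      intro x hx
      rw [mem_union]
      by_cases h2 : x ∈ E
      · exact Or.inr h2
      · exact Or.inl (h x hx h2)
    exact (sum_le_sum_of_subset_of_nonneg h1 fun x _ _ => hw x).trans (sum_un_le hw B E)
  rw [abs_le]
  constructor
  · have := key B A hB; linarith
  · have := key A B hA; linarith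

open Classical in
/-- the points where the value of a form is in a set and in a window -/
noncomputable def slab {D : ℕ} (P P' : Fin D → ℤ) (b : Fin D → ℤ) (c : ℤ) (S : Set ℤ) (M N : ℕ) : Finset (Fin D → ℤ) :=
  (box P P').filter (fun x => (dot b x + c) ∈ S ∧ (M : ℤ) < dot b x + c ∧ dot b x + c ≤ N)

theorem mem_slab {D : ℕ} {P P' : Fin D → ℤ} {b : Fin D → ℤ} {c : ℤ} {S : Set ℤ} {M N : ℕ} {y : Fin D → ℤ} :
    y ∈ slab P P' b c S M N ↔ y ∈ box P P' ∧ ((dot b y + c) ∈ S ∧ (M : ℤ) < dot b y + c ∧ dot b y + c ≤ N) := by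
  classical
  unfold slab
  exact Finset.mem_filter

theorem slab_card {D N : ℕ} {P P' : Fin (D + 1) → ℤ} (hP : ∀ j, P' j - P j ≤ N) {b : Fin (D + 1) → ℤ} (hb : b ≠ 0) (c : ℤ)
    (S : Set ℤ) (M N' : ℕ) {z : ℕ} (hz : {n : ℕ | M < n ∧ n ≤ N' ∧ (n : ℤ) ∈ S}.ncard ≤ z) : (slab P P' b c S M N').card ≤ z * N ^ D := by
  classical
  have h1 : slab P P' b c S M N' ⊆ (box P P').filter (fun x => dot b x + c ∈
      ((Ioc M N').filter (fun n : ℕ => (n : ℤ) ∈ S)).image (fun n : ℕ => (n : ℤ))) := by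
    intro x hx
    unfold slab at hx
    rw [mem_filter] at hx ⊢
    refine ⟨hx.1, ?_⟩
    rw [mem_image]
    refine ⟨(dot b x + c).toNat, ?_, by omega⟩
    rw [mem_filter, mem_Ioc]
    have h2 : ((dot b x + c).toNat : ℤ) = dot b x + c := by omega
    refine ⟨by omega, by rw [h2]; exact hx.2.1⟩
  refine (card_le_card h1).trans ((fib hP hb c _).trans ?_)
  apply Nat.mul_le_mul_right
  refine card_image_le.trans (le_trans (le_of_eq ?_) hz)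
  rw [← Set.ncard_coe_finset]
  congr 1
  ext n
  simp only [coe_filter, mem_Ioc, Set.mem_ofPred_eq]
  tauto

theorem slab_pts {D : ℕ} (P P' : Fin D → ℤ) (b : Fin D → ℤ) (c : ℤ) (S : Set ℤ) (M N : ℕ) :
    slab P P' b c S M N = pts (fun _ : Fin 1 => b) (fun _ => c) (fun _ => 1) (fun _ => M) (fun _ => N) P P' (fun _ => S) := by
  classical
  unfold slab pts
  ext x
  rw [mem_filter, mem_filter]
  simp only [one_mul, forall_const]

/-- replacing the level sets by fixed thresholds -/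
theorem replace {D r m : ℕ} {Λ : Fin r → Fin (D + 1) → ℤ} {a : Fin r → ℤ} {x : Fin r → ℝ} {η : Fin r → ℝ} {N M0 : ℕ}
    (hn : ∀ i, ∀ n : ℕ, M0 < n → n ≤ N → bd (x i - η i) N ≤ bd (x i) n ∧ bd (x i) n ≤ bd (x i + η i) N)
    (hη : ∀ i, 0 < η i) {w : (Fin (D + 1) → ℤ) → ℝ} (hw : ∀ y, 0 ≤ w y) (c : Fin r → ℤ) (M N' : Fin r → ℕ) (hN' : ∀ i, N' i ≤ N)
    (P P' : Fin (D + 1) → ℤ) :
    |∑ y ∈ pts Λ c (fun _ => 1) M N' P P' (fun i => SX m (a i) (x i)), w y -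
      ∑ y ∈ pts Λ c (fun _ => 1) (fun i => max (M i) M0) (fun i => max (N' i) M0) P P' (fun i => SB m (a i) (bd (x i) N)), w y| ≤
      ∑ i, (∑ y ∈ slab P P' (Λ i) (c i) Set.univ 0 M0, w y +
        ∑ y ∈ slab P P' (Λ i) (c i) (ZB m (a i) (bd (x i + η i) N) (bd (x i - η i) N)) M0 N, w y) := by
  classical
  have h1 : ∑ i, (∑ y ∈ slab P P' (Λ i) (c i) Set.univ 0 M0, w y +
        ∑ y ∈ slab P P' (Λ i) (c i) (ZB m (a i) (bd (x i + η i) N) (bd (x i - η i) N)) M0 N, w y) ≥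
      ∑ y ∈ univ.biUnion (fun i => slab P P' (Λ i) (c i) Set.univ 0 M0 ∪
        slab P P' (Λ i) (c i) (ZB m (a i) (bd (x i + η i) N) (bd (x i - η i) N)) M0 N), w y :=
    (sum_bi_le hw univ _).trans (sum_le_sum fun i _ => sum_un_le hw _ _)
  refine le_trans ?_ h1
  have key : ∀ y : Fin (D + 1) → ℤ, y ∉ univ.biUnion (fun i => slab P P' (Λ i) (c i) Set.univ 0 M0 ∪
        slab P P' (Λ i) (c i) (ZB m (a i) (bd (x i + η i) N) (bd (x i - η i) N)) M0 N) →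
      (y ∈ pts Λ c (fun _ => 1) M N' P P' (fun i => SX m (a i) (x i)) ↔
       y ∈ pts Λ c (fun _ => 1) (fun i => max (M i) M0) (fun i => max (N' i) M0) P P' (fun i => SB m (a i) (bd (x i) N))) := by
    intro y hy
    unfold pts
    rw [mem_filter, mem_filter]
    refine and_congr_right fun hbox => forall_congr' fun i => ?_
    rw [mem_biUnion] at hy
    push Not at hy
    have hy' := hy i (mem_univ i)
    rw [mem_union] at hy'
    push Not at hy'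
    obtain ⟨hy1, hy2⟩ := hy'
    rw [mem_slab] at hy1 hy2
    rw [one_mul]
    apply iff_i (hN' i)
    · rintro ⟨h3, h4⟩
      exact hy1 ⟨hbox, Set.mem_univ _, by push_cast; exact h3, h4⟩
    · intro h3 h4
      by_contra hcon
      apply hy2
      refine ⟨hbox, ?_, h3, h4⟩
      have hv0 : 0 < dot (Λ i) y + c i := by omega
      obtain ⟨n, hnv⟩ := Int.eq_ofNat_of_zero_le hv0.le
      rw [hnv] at hcon h3 h4 hv0 ⊢
      have h5 : M0 < n := by exact_mod_cast h3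
      have h6 : n ≤ N := by exact_mod_cast h4
      obtain ⟨h7, h8⟩ := hn i n h5 h6
      have h9 : ¬ (EB m (a i) (bd (x i) n) n ↔ EB m (a i) (bd (x i) N) n) := by
        intro h10
        apply hcon
        unfold SX SB
        rw [Set.mem_ofPred_eq, Set.mem_ofPred_eq, Int.toNat_natCast]
        exact and_congr_right fun _ => h10
      have hηi := hη i
      have h10 := EB_sand h7 h8 (bd_mono (by linarith) N) (bd_mono (by linarith) N) h9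
      unfold ZB
      rw [Set.mem_ofPred_eq, Int.toNat_natCast]
      exact ⟨hv0, h10⟩
  exact sum_symm hw _ _ _ (fun y h2 h3 => (key y h3).1 h2) (fun y h2 h3 => (key y h3).2 h2)

end Pool.Agent.W36.JL
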