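import Pool.Agent.W36.JL.K2

/-! The joint law of the total stopping times on the points that survive a sieve. -/

set_option autoImplicit false

namespace Pool.Agent.W36.JL

open Finset Filter Topology Pool.Agent.H320R2.PD
open Pool.Agent.H499R2.ND (Tn Dn cnt cnt_eq cnt_mono cnt_or cnt_small cnt_le Td Phi)
open Pool.Agent.H499R2.CO (Tz)
open Pool.Agent.W36.GK (box dot Indep box_fiber mem_box Cn GN_all)
open Pool.Agent.W36.GS (pts sgq VV VV_nonneg sgq_nonneg sum_bi_le sum_un_le pts_card)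

theorem Cn_pts {D r : ℕ} (Λ : Fin r → Fin D → ℤ) (c : Fin r → ℤ) (M N : Fin r → ℕ) (P P' : Fin D → ℤ) (S : Fin r → Set ℤ) :
    Cn Λ c (fun _ => 1) M N P P' S = (pts Λ c (fun _ => 1) M N P P' S).card := by
  classical
  unfold Cn pts
  rw [← Set.ncard_coe_finset]
  congr 1
  ext y
  rw [Finset.mem_coe, Finset.mem_filter, mem_box]
  rfl

/-- the parameters of one form -/
theorem par {m : ℕ} {a : ℤ} {δ : ℝ} (hlaw : ∀ x : ℝ, Dn (fun n => EB m a (bd x n) n) (δ * Phi x / m)) (x : ℝ) {e : ℝ}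
    (he : 0 < e) (he1 : e ≤ 1) : ∃ η : ℝ, 0 < η ∧ ∃ N0 : ℕ, ∀ N : ℕ, N0 ≤ N → ∀ M0 : ℕ, e * N ≤ M0 →
      (∀ n : ℕ, M0 < n → n ≤ N → bd (x - η) N ≤ bd x n ∧ bd x n ≤ bd (x + η) N) ∧
      ({n : ℕ | M0 < n ∧ n ≤ N ∧ (n : ℤ) ∈ ZB m a (bd (x + η) N) (bd (x - η) N)}.ncard : ℝ) ≤ e * N := by
  obtain ⟨η', hη', N1, h1⟩ := stab hlaw x he
  obtain ⟨η, rfl⟩ : ∃ η, η' = 2 * η := ⟨η' / 2, by ring⟩
  have hη : 0 < η := by linarith
  obtain ⟨N2, hN2, h2⟩ := bd_near x hη 0 (-Real.log e)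
  obtain ⟨N3, hN3, h3⟩ := bd_near (x + η) hη 0 (-Real.log e)
  obtain ⟨N4, hN4, h4⟩ := bd_near (x - η) hη 0 (-Real.log e)
  obtain ⟨N5, hN5⟩ := exists_nat_ge (((N2 + N3 + N4 : ℕ) : ℝ) / e)
  refine ⟨η, hη, N1 + N2 + N3 + N4 + N5, fun N hN M0 hM0 => ?_⟩
  have hNp : (0 : ℝ) < N := by exact_mod_cast (by omega : 0 < N)
  have hbig : N2 + N3 + N4 ≤ M0 := by
    have h5 : ((N2 + N3 + N4 : ℕ) : ℝ) / e ≤ N := hN5.trans (by exact_mod_cast (by omega : N5 ≤ N))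
    rw [div_le_iff₀ he] at h5
    have h6 : ((N2 + N3 + N4 : ℕ) : ℝ) ≤ M0 := by linarith
    exact_mod_cast h6
  have hlog : ∀ n : ℕ, M0 < n → n ≤ N → |Real.log N - Real.log n| ≤ -Real.log e := by
    intro n hn1 hn2
    have hnp : (0 : ℝ) < n := by exact_mod_cast (by omega : 0 < n)
    have h5 : Real.log n ≤ Real.log N := Real.log_le_log hnp (by exact_mod_cast hn2)
    rw [abs_of_nonneg (by linarith)]
    have h6 : Real.log (e * N) ≤ Real.log n := by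
      apply Real.log_le_log (by positivity)
      have : (M0 : ℝ) ≤ n := by exact_mod_cast hn1.le
      linarith
    rw [Real.log_mul he.ne' hNp.ne'] at h6
    linarith
  refine ⟨fun n hn1 hn2 => ?_, ?_⟩
  · have h5 := h2 N n (by omega) (by omega) (by rw [abs_sub_comm]; exact hlog n hn1 hn2)
    rw [add_zero, add_zero] at h5
    exact h5
  · refine le_trans ?_ (h1 N (by omega))
    unfold Pool.Agent.H499R2.ND.cnt
    have hfin : {n : ℕ | 1 ≤ n ∧ n ≤ N ∧ (EB m a (bd (x + 2 * η) n) n ∧ ¬ EB m a (bd (x - 2 * η) n) n)}.Finite :=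
      (Set.finite_Iic N).subset fun n hn => hn.2.1
    have hsub : {n : ℕ | M0 < n ∧ n ≤ N ∧ (n : ℤ) ∈ ZB m a (bd (x + η) N) (bd (x - η) N)} ⊆
        {n : ℕ | 1 ≤ n ∧ n ≤ N ∧ (EB m a (bd (x + 2 * η) n) n ∧ ¬ EB m a (bd (x - 2 * η) n) n)} := by
      rintro n ⟨hn1, hn2, hn3⟩
      unfold ZB at hn3
      rw [Set.mem_ofPred_eq, Int.toNat_natCast] at hn3
      have h5 := (h3 n N (by omega) (by omega) (hlog n hn1 hn2)).2
      have h6 := (h4 n N (by omega) (by omega) (hlog n hn1 hn2)).1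
      rw [add_zero] at h5 h6
      have e1 : x + η + η = x + 2 * η := by ring
      have e2 : x - η - η = x - 2 * η := by ring
      rw [e1] at h5
      rw [e2] at h6
      exact ⟨by omega, hn2, EB_mono h5 hn3.2.1, fun h7 => hn3.2.2 (EB_mono h6 h7)⟩
    exact_mod_cast Set.ncard_le_ncard hsub hfin

/-- THE JOINT LAW ON SIFTED POINTS -/
theorem jointS {D r κ m : ℕ} (hm : 1 ≤ m) {δ : ℝ} (hδ0 : 0 < δ) (hδ1 : δ ≤ 1)
    (hlaw : ∀ a : ℤ, ∀ x : ℝ, Dn (fun n => EB m a (bd x n) n) (δ * Phi x / m))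
    {Λ : Fin r → Fin (D + 1) → ℤ} (h0 : ∀ i, Λ i ≠ 0) (hΛ : ∀ i j, i ≠ j → Indep (Λ i) (Λ j)) (a : Fin r → ℤ) (x : Fin r → ℝ)
    {ε : ℝ} (hε : 0 < ε) :
    ∃ θ : ℝ, 0 < θ ∧ ∃ N0 : ℕ, ∀ N : ℕ, N0 ≤ N → ∀ Q : Finset ℕ, (∀ p ∈ Q, p.Prime ∧ (p : ℝ) ≤ (N : ℝ) ^ θ) →
    ∀ Ω : (p : ℕ) → Set (Fin (D + 1) → ZMod p), (∀ p ∈ Q, (Ω p).ncard * p ≤ κ * p ^ (D + 1)) →
    ∀ qq : ℕ, qq % 2 = 1 → (qq : ℝ) ≤ (N : ℝ) ^ θ → (∀ p ∈ Q, ¬ p ∣ qq) → ∀ ρ : Fin (D + 1) → ZMod qq,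
    ∀ c : Fin r → ℤ, ∀ M N' : Fin r → ℕ, (∀ i, M i ≤ N' i) → (∀ i, N' i ≤ N) →
    ∀ P P' : Fin (D + 1) → ℤ, (∀ j, P' j - P j ≤ N) →
    |∑ y ∈ pts Λ c (fun _ => 1) M N' P P' (fun i => SX m (a i) (x i)), sgq qq ρ Q Ω y -
      (∏ i, δ * Phi (x i) / m) * ∑ y ∈ pts Λ c (fun _ => 1) M N' P P' (fun _ => Set.univ), sgq qq ρ Q Ω y| ≤
      ε * (VV Q Ω / (qq : ℝ) ^ (D + 1)) * (N : ℝ) ^ (D + 1) := by
  classical
  obtain ⟨e, he⟩ : ∃ e : ℝ, e = min (ε / (8 * (r + 1))) 1 := ⟨_, rfl⟩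
  have he0 : 0 < e := by rw [he]; exact lt_min (by positivity) one_pos
  have he1 : e ≤ 1 := by rw [he]; exact min_le_right _ _
  have he2 : (8 * (r + 1)) * e ≤ ε := by
    have h1 : e ≤ ε / (8 * (r + 1)) := by rw [he]; exact min_le_left _ _
    rw [le_div_iff₀ (by positivity)] at h1
    linarith
  obtain ⟨θ1, hθ1, N1, h1⟩ := cmpS (κ := κ) h0 he0
  choose θ2 hθ2 N2 h2 using fun i => cmpS (κ := κ) (Λ := fun _ : Fin 1 => Λ i) (fun _ => h0 i) he0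
  choose η hη N3 h3 using fun i => par (hlaw (a i)) (x i) (show 0 < e / 2 by positivity) (by linarith)
  obtain ⟨N4, h4⟩ := countG (GN_all (FF_hyp hδ0 hδ1 hm a x hlaw) r) Λ h0 hΛ (fun i => SX m (a i) (x i)) (fun i => δ * Phi (x i) / m)
    (fun i => dens_mem hδ0 hδ1 hm (x i)) (fun i => ⟨i, rfl⟩) he0
  obtain ⟨N5, hN5⟩ := exists_nat_ge ((2 / e) ^ 2)
  obtain ⟨θ, hθa, hθ0⟩ : ∃ θ : ℝ, (θ ≤ θ1 ∧ ∀ i, θ ≤ θ2 i) ∧ 0 < θ := by
    have hf : ∀ᶠ t in 𝓝[>] (0 : ℝ), (t ≤ θ1 ∧ ∀ i, t ≤ θ2 i) ∧ 0 < t := by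
      refine ((?_ : ∀ᶠ t in 𝓝[>] (0 : ℝ), t ≤ θ1).and (eventually_all.2 fun i => ?_)).and self_mem_nhdsWithin
      · filter_upwards [Ioc_mem_nhdsGT hθ1] with t ht using ht.2
      · filter_upwards [Ioc_mem_nhdsGT (hθ2 i)] with t ht using ht.2
    exact hf.exists
  refine ⟨θ, hθ0, N1 + ∑ i, N2 i + ∑ i, N3 i + N4 + N5 + 1, fun N hN Q hQ Ω hΩ qq hq1 hq2 hq3 ρ c M N' hMN hN' P P' hP => ?_⟩
  have hN2 : ∀ i, N2 i ≤ N := fun i => by
    have := single_le_sum (f := N2) (fun _ _ => Nat.zero_le _) (mem_univ i)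
    omega
  have hN3 : ∀ i, N3 i ≤ N := fun i => by
    have := single_le_sum (f := N3) (fun _ _ => Nat.zero_le _) (mem_univ i)
    omega
  have hN1R : (1 : ℝ) ≤ N := by exact_mod_cast (by omega : 1 ≤ N)
  have hNp : (0 : ℝ) < N := by linarith
  have hle1 : (N : ℝ) ^ θ ≤ (N : ℝ) ^ θ1 := Real.rpow_le_rpow_of_exponent_le hN1R hθa.1
  have hle2 : ∀ i, (N : ℝ) ^ θ ≤ (N : ℝ) ^ θ2 i := fun i => Real.rpow_le_rpow_of_exponent_le hN1R (hθa.2 i)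
  -- the lower end of the windows
  obtain ⟨M0, hM0⟩ : ∃ M0 : ℕ, M0 = ⌈e / 2 * N⌉₊ := ⟨_, rfl⟩
  have hM1 : e / 2 * N ≤ M0 := by rw [hM0]; exact Nat.le_ceil _
  have hsq : (2 / e) ^ 2 ≤ (N : ℝ) := hN5.trans (by exact_mod_cast (by omega : N5 ≤ N))
  have hsqrt : 2 / e ≤ Real.sqrt N := Real.le_sqrt_of_sq_le hsq
  have hss : Real.sqrt N * Real.sqrt N = N := Real.mul_self_sqrt hNp.le
  have hs0 : 0 ≤ Real.sqrt N := Real.sqrt_nonneg _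
  have hsN : Real.sqrt N ≤ e / 2 * N := by
    rw [div_le_iff₀ he0] at hsqrt
    nlinarith
  have hM2 : (M0 : ℝ) ≤ e * N := by
    have h5 : (M0 : ℝ) < e / 2 * N + 1 := by rw [hM0]; exact Nat.ceil_lt_add_one (by positivity)
    have h6 : (1 : ℝ) ≤ e / 2 * N := by
      refine le_trans ?_ hsN
      refine le_trans ?_ hsqrt
      rw [le_div_iff₀ he0]; linarith
    linarith
  have hM3 : (2 : ℤ) ^ (Nat.log 4 N) ≤ M0 := by
    have h5 : 4 ^ (Nat.log 4 N) ≤ N := Nat.pow_log_le_self 4 (by omega)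
    have h6 : ((2 : ℝ) ^ (Nat.log 4 N)) ^ 2 ≤ N := by
      rw [← pow_mul, mul_comm, pow_mul]
      norm_num
      exact_mod_cast h5
    have h7 : (2 : ℝ) ^ (Nat.log 4 N) ≤ M0 := (Real.le_sqrt_of_sq_le h6).trans (hsN.trans hM1)
    exact_mod_cast h7
  have hVn' := VV_nonneg (fun p hp => (hQ p hp).1) Ω
  have hqR : (0 : ℝ) < qq := by exact_mod_cast (by omega : 0 < qq)
  obtain ⟨V, hV⟩ : ∃ V : ℝ, V = VV Q Ω / (qq : ℝ) ^ (D + 1) := ⟨_, rfl⟩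
  have hV0 : 0 ≤ V := by rw [hV]; positivity
  obtain ⟨w, hw⟩ : ∃ w : (Fin (D + 1) → ℤ) → ℝ, w = sgq qq ρ Q Ω := ⟨_, rfl⟩
  have hw0 : ∀ y, 0 ≤ w y := by rw [hw]; exact sgq_nonneg qq ρ Q Ω
  obtain ⟨Y, hY⟩ : ∃ Y : ℝ, Y = (N : ℝ) ^ (D + 1) := ⟨_, rfl⟩
  have hY0 : 0 ≤ Y := by rw [hY]; positivity
  have hYN : (N : ℝ) * (N : ℝ) ^ D = Y := by rw [hY, pow_succ]; ring
  have hrep := fun (w : (Fin (D + 1) → ℤ) → ℝ) (hw0 : ∀ y, 0 ≤ w y) => replace (m := m) (Λ := Λ) (a := a) (x := x) (η := η) (N := N) (M0 := M0)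
    (fun i => ((h3 i) N (hN3 i) M0 hM1).1) hη hw0 c M N' hN' P P'
  obtain ⟨Z, hZ⟩ : ∃ Z : Fin r → Set ℤ, Z = fun i => ZB m (a i) (bd (x i + η i) N) (bd (x i - η i) N) := ⟨_, rfl⟩
  -- cards of the slabs
  have hc1 : ∀ i, ((slab P P' (Λ i) (c i) Set.univ 0 M0).card : ℝ) ≤ e * Y := by
    intro i
    have h5 := slab_card hP (h0 i) (c i) Set.univ 0 M0 (z := M0) (by
      have h6 : {n : ℕ | 0 < n ∧ n ≤ M0 ∧ (n : ℤ) ∈ Set.univ} ⊆ (Icc 1 M0 : Finset ℕ) := by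
        rintro n ⟨b1, b2, _⟩
        rw [Finset.mem_coe, mem_Icc]
        exact ⟨b1, b2⟩
      refine (Set.ncard_le_ncard h6 (Finset.finite_toSet _)).trans ?_
      rw [Set.ncard_coe_finset, Nat.card_Icc, Nat.add_sub_cancel])
    have h6 : ((slab P P' (Λ i) (c i) Set.univ 0 M0).card : ℝ) ≤ M0 * (N : ℝ) ^ D := by exact_mod_cast h5
    refine h6.trans ?_
    calc (M0 : ℝ) * (N : ℝ) ^ D ≤ (e * N) * (N : ℝ) ^ D := mul_le_mul_of_nonneg_right hM2 (by positivity)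
      _ = e * Y := by rw [← hYN]; ring
  have hc2 : ∀ i, ((slab P P' (Λ i) (c i) (Z i) M0 N).card : ℝ) ≤ e * Y := by
    intro i
    have h5 := slab_card hP (h0 i) (c i) (Z i) M0 N le_rfl
    have h6 : ((slab P P' (Λ i) (c i) (Z i) M0 N).card : ℝ) ≤ ({n : ℕ | M0 < n ∧ n ≤ N ∧ (n : ℤ) ∈ Z i}.ncard : ℝ) * (N : ℝ) ^ D := by
      exact_mod_cast h5
    refine h6.trans ?_
    have h7 := (h3 i N (hN3 i) M0 hM1).2
    have h8 : ({n : ℕ | M0 < n ∧ n ≤ N ∧ (n : ℤ) ∈ Z i}.ncard : ℝ) ≤ e * N := by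
      rw [hZ]
      refine h7.trans ?_
      have : 0 ≤ e * N := by positivity
      linarith
    calc ({n : ℕ | M0 < n ∧ n ≤ N ∧ (n : ℤ) ∈ Z i}.ncard : ℝ) * (N : ℝ) ^ D ≤ (e * N) * (N : ℝ) ^ D :=
          mul_le_mul_of_nonneg_right h8 (by positivity)
      _ = e * Y := by rw [← hYN]; ring
  -- sifted sums over the slabs
  have hM0N : M0 ≤ N := by
    have h5 : (M0 : ℝ) ≤ N := hM2.trans (by nlinarith)
    exact_mod_cast h5
  have hslab : ∀ i, ∀ S : Set ℤ, ∀ M1 N1' : ℕ, Coal 1 1 M1 (Nat.log 4 N) S → M1 ≤ N1' →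
      ∑ y ∈ slab P P' (Λ i) (c i) S M1 N1', w y ≤ V * (slab P P' (Λ i) (c i) S M1 N1').card + e * V * Y := by
    intro i S M1 N1' hS hM
    have h5 := h2 i N (hN2 i) Q (fun p hp => ⟨(hQ p hp).1, (hQ p hp).2.trans (hle2 i)⟩) Ω hΩ qq hq1 (hq2.trans (hle2 i)) hq3 ρ
      (fun _ => S) (fun _ => c i) (fun _ => M1) (fun _ => N1') (fun _ => hS) (fun _ => hM) P P' hP
    rw [← slab_pts, ← hV, ← hw, ← hY] at h5
    have := (abs_le.1 h5).2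
    linarith
  have hrepw : |∑ y ∈ pts Λ c (fun _ => 1) M N' P P' (fun i => SX m (a i) (x i)), w y -
      ∑ y ∈ pts Λ c (fun _ => 1) (fun i => max (M i) M0) (fun i => max (N' i) M0) P P' (fun i => SB m (a i) (bd (x i) N)), w y| ≤
      r * (4 * e * V * Y) := by
    refine (hrep w hw0).trans ?_
    have h5 : ∀ i ∈ (univ : Finset (Fin r)), (∑ y ∈ slab P P' (Λ i) (c i) Set.univ 0 M0, w y +
        ∑ y ∈ slab P P' (Λ i) (c i) (ZB m (a i) (bd (x i + η i) N) (bd (x i - η i) N)) M0 N, w y) ≤ 4 * e * V * Y := by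
      intro i _
      have g1 := hslab i Set.univ 0 M0 (coal_univ _ _ _ _) (Nat.zero_le _)
      have g2 := hslab i (Z i) M0 N (by rw [hZ]; exact ZB_coal hM3 _ _) hM0N
      have g3 := mul_le_mul_of_nonneg_left (hc1 i) hV0
      have g4 := mul_le_mul_of_nonneg_left (hc2 i) hV0
      rw [hZ] at g2 g4
      simp only at g2 g4
      linarith
    refine (sum_le_sum h5).trans (le_of_eq ?_)
    rw [sum_const, card_univ, Fintype.card_fin, nsmul_eq_mul]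
  have hrep1 : |((pts Λ c (fun _ => 1) M N' P P' (fun i => SX m (a i) (x i))).card : ℝ) -
      (pts Λ c (fun _ => 1) (fun i => max (M i) M0) (fun i => max (N' i) M0) P P' (fun i => SB m (a i) (bd (x i) N))).card| ≤
      r * (2 * e * Y) := by
    have h5 := hrep (fun _ => 1) (fun _ => zero_le_one)
    simp only [sum_const, nsmul_eq_mul, mul_one] at h5
    refine h5.trans ?_
    have h6 : ∀ i ∈ (univ : Finset (Fin r)), (((slab P P' (Λ i) (c i) Set.univ 0 M0).card : ℝ) +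
        ((slab P P' (Λ i) (c i) (ZB m (a i) (bd (x i + η i) N) (bd (x i - η i) N)) M0 N).card : ℝ)) ≤ 2 * e * Y := by
      intro i _
      have g3 := hc1 i
      have g4 := hc2 i
      rw [hZ] at g4
      simp only at g4
      linarith
    refine (sum_le_sum h6).trans (le_of_eq ?_)
    rw [sum_const, card_univ, Fintype.card_fin, nsmul_eq_mul]
  -- the comparison for the fixed thresholds and for all points
  have k1 := h1 N (by omega) Q (fun p hp => ⟨(hQ p hp).1, (hQ p hp).2.trans hle1⟩) Ω hΩ qq hq1 (hq2.trans hle1) hq3 ρ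
    (fun i => SB m (a i) (bd (x i) N)) c (fun i => max (M i) M0) (fun i => max (N' i) M0) (fun i => SB_coal (by
      push_cast
      exact hM3.trans (le_max_right _ _)) _) (fun i => max_le_max_right M0 (hMN i)) P P' hP
  have k2 := h1 N (by omega) Q (fun p hp => ⟨(hQ p hp).1, (hQ p hp).2.trans hle1⟩) Ω hΩ qq hq1 (hq2.trans hle1) hq3 ρ
    (fun _ => Set.univ) c M N' (fun i => coal_univ _ _ _ _) hMN P P' hP
  have k3 := h4 N (by omega) c M N' hMN hN' P P' hP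
  rw [Cn_pts, Cn_pts, ← hY] at k3
  rw [← hV, ← hw, ← hY] at k1 k2
  rw [← hV, ← hw, ← hY]
  obtain ⟨π, hπ⟩ : ∃ π : ℝ, π = ∏ i, δ * Phi (x i) / m := ⟨_, rfl⟩
  have hπ0 : 0 ≤ π := by rw [hπ]; exact prod_nonneg fun i _ => (dens_mem hδ0 hδ1 hm (x i)).1
  have hπ1 : π ≤ 1 := by
    rw [hπ]
    exact prod_le_one (fun i _ => (dens_mem hδ0 hδ1 hm (x i)).1) (fun i _ => (dens_mem hδ0 hδ1 hm (x i)).2)
  rw [← hπ] at k3 ⊢
  obtain ⟨A1, hA1⟩ : ∃ A1 : ℝ, A1 = ∑ y ∈ pts Λ c (fun _ => 1) M N' P P' (fun i => SX m (a i) (x i)), w y := ⟨_, rfl⟩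
  obtain ⟨A2, hA2⟩ : ∃ A2 : ℝ, A2 = ∑ y ∈ pts Λ c (fun _ => 1) (fun i => max (M i) M0) (fun i => max (N' i) M0) P P' (fun i => SB m (a i) (bd (x i) N)), w y := ⟨_, rfl⟩
  obtain ⟨A3, hA3⟩ : ∃ A3 : ℝ, A3 = ∑ y ∈ pts Λ c (fun _ => 1) M N' P P' (fun _ => Set.univ), w y := ⟨_, rfl⟩
  obtain ⟨C1, hC1⟩ : ∃ C1 : ℝ, C1 = ((pts Λ c (fun _ => 1) M N' P P' (fun i => SX m (a i) (x i))).card : ℝ) := ⟨_, rfl⟩
  obtain ⟨C2, hC2⟩ : ∃ C2 : ℝ, C2 = ((pts Λ c (fun _ => 1) (fun i => max (M i) M0) (fun i => max (N' i) M0) P P' (fun i => SB m (a i) (bd (x i) N))).card : ℝ) := ⟨_, rfl⟩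
  obtain ⟨C3, hC3⟩ : ∃ C3 : ℝ, C3 = ((pts Λ c (fun _ => 1) M N' P P' (fun _ => Set.univ)).card : ℝ) := ⟨_, rfl⟩
  rw [← hA1, ← hA2] at hrepw
  rw [← hC1, ← hC2] at hrep1
  rw [← hA2, ← hC2] at k1
  rw [← hA3, ← hC3] at k2
  rw [← hC1, ← hC3] at k3
  rw [← hA1, ← hA3]
  have hVY : 0 ≤ V * Y := mul_nonneg hV0 hY0
  -- assembly
  have f1 : |V * (C2 - C1)| ≤ V * (r * (2 * e * Y)) := by
    rw [abs_mul, abs_of_nonneg hV0, abs_sub_comm]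
    exact mul_le_mul_of_nonneg_left hrep1 hV0
  have f2 : |V * (C1 - π * C3)| ≤ V * (e * Y) := by
    rw [abs_mul, abs_of_nonneg hV0]
    exact mul_le_mul_of_nonneg_left k3 hV0
  have f3 : |π * (V * C3 - A3)| ≤ e * V * Y := by
    rw [abs_mul, abs_of_nonneg hπ0, abs_sub_comm]
    calc π * |A3 - V * C3| ≤ 1 * (e * V * Y) := mul_le_mul hπ1 k2 (abs_nonneg _) zero_le_one
      _ = _ := one_mul _
  have f4 : A1 - π * A3 = (A1 - A2) + (A2 - V * C2) + V * (C2 - C1) + V * (C1 - π * C3) + π * (V * C3 - A3) := by ring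
  have hfin : (r : ℝ) * (4 * e * V * Y) + e * V * Y + V * (r * (2 * e * Y)) + V * (e * Y) + e * V * Y ≤ ε * V * Y := by
    have h5 : (r : ℝ) * (4 * e * V * Y) + e * V * Y + V * (r * (2 * e * Y)) + V * (e * Y) + e * V * Y = ((6 * r + 3) * e) * (V * Y) := by ring
    rw [h5, mul_assoc ε V Y]
    apply mul_le_mul_of_nonneg_right _ hVY
    refine le_trans ?_ he2
    apply mul_le_mul_of_nonneg_right _ he0.le
    have : (0 : ℝ) ≤ r := Nat.cast_nonneg _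
    linarith
  rw [f4]
  refine le_trans ?_ hfin
  refine (abs_add_le _ _).trans (add_le_add ?_ f3)
  refine (abs_add_le _ _).trans (add_le_add ?_ f2)
  refine (abs_add_le _ _).trans (add_le_add ?_ f1)
  exact (abs_add_le _ _).trans (add_le_add hrepw k1)

end Pool.Agent.W36.JL
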