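import Pool.Agent.W36.GT.T9
import Pool.Agent.H499R2.CL.O4

/-! Inclusion and exclusion for windows. -/

set_option autoImplicit false

namespace Pool.Agent.W36.JL

open Finset Pool.Agent.W36.GK
open Pool.Agent.W36.GS (pts)
open Pool.Agent.H499R2.ND (Phi)

theorem Phi_lt {x y : ℝ} (h : y < x) : Phi y < Phi x := by
  have h1 : Set.Iic x = Set.Iic y ∪ Set.Ioc y x := (Set.Iic_union_Ioc_eq_Iic h.le).symm
  unfold Phi
  rw [h1, MeasureTheory.measureReal_union (Set.disjoint_left.2 fun z h2 h3 => by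
    rw [Set.mem_Iic] at h2; rw [Set.mem_Ioc] at h3; linarith [h3.1]) measurableSet_Ioc]
  have h2 : 0 < (ProbabilityTheory.gaussianReal 0 1).real (Set.Ioc y x) := by
    rw [MeasureTheory.measureReal_def, ENNReal.toReal_pos_iff]
    refine ⟨?_, MeasureTheory.measure_lt_top _ _⟩
    rw [pos_iff_ne_zero]
    intro h0
    have h3 := ProbabilityTheory.gaussianReal_absolutelyContinuous' 0 (one_ne_zero) h0
    rw [Real.volume_Ioc, ENNReal.ofReal_eq_zero] at h3
    linarith
  linarith

theorem prod_expand {r : ℕ} (f g : Fin r → ℝ) :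
    ∏ i, (f i - g i) = ∑ t ∈ (univ : Finset (Fin r)).powerset, (-1) ^ (univ \ t).card * ∏ i, (if i ∈ t then f i else g i) := by
  simp only [sub_eq_add_neg]
  rw [prod_add]
  apply sum_congr rfl
  intro t _
  rw [← prod_sdiff (subset_univ t)]
  have e1 : ∏ i ∈ univ \ t, (if i ∈ t then f i else g i) = ∏ i ∈ univ \ t, g i := by
    apply prod_congr rfl
    intro i hi
    rw [if_neg (mem_sdiff.1 hi).2]
  have e2 : ∏ i ∈ t, (if i ∈ t then f i else g i) = ∏ i ∈ t, f i := by
    apply prod_congr rfl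
    intro i hi
    rw [if_pos hi]
  have e3 : ∏ i ∈ univ \ t, -g i = (-1) ^ (univ \ t).card * ∏ i ∈ univ \ t, g i := by
    rw [← prod_const, ← prod_mul_distrib]
    apply prod_congr rfl
    intro i _
    ring
  rw [e1, e2, e3]
  ring

/-- sums over the points with values in given sets as weighted sums over all points -/
theorem sum_pts_ind {D r : ℕ} (Λ : Fin r → Fin D → ℤ) (c s : Fin r → ℤ) (M N : Fin r → ℕ) (P P' : Fin D → ℤ) (S : Fin r → Set ℤ)
    (w : (Fin D → ℤ) → ℝ) :
    ∑ v ∈ pts Λ c s M N P P' S, w v =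
      ∑ v ∈ pts Λ c s M N P P' (fun _ => Set.univ), w v * ∏ i, (S i).indicator (fun _ => (1 : ℝ)) (dot (Λ i) v + c i) := by
  classical
  have h1 : pts Λ c s M N P P' S = (pts Λ c s M N P P' (fun _ => Set.univ)).filter (fun v => ∀ i, dot (Λ i) v + c i ∈ S i) := by
    ext v
    rw [mem_filter, GT.mem_pts, GT.mem_pts]
    constructor
    · rintro ⟨a, b⟩; exact ⟨⟨a, fun i => ⟨Set.mem_univ _, (b i).2⟩⟩, fun i => (b i).1⟩
    · rintro ⟨⟨a, b⟩, c⟩; exact ⟨a, fun i => ⟨c i, (b i).2⟩⟩
  rw [h1, sum_filter]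
  apply sum_congr rfl
  intro v _
  split_ifs with h
  · rw [prod_eq_one, mul_one]
    intro i _
    rw [Set.indicator_of_mem (h i)]
  · push Not at h
    obtain ⟨i, hi⟩ := h
    rw [prod_eq_zero (mem_univ i) (Set.indicator_of_notMem hi _), mul_zero]

theorem incl_excl {D r : ℕ} (Λ : Fin r → Fin D → ℤ) (c s : Fin r → ℤ) (M N : Fin r → ℕ) (P P' : Fin D → ℤ) {A B : Fin r → Set ℤ}
    (hBA : ∀ i, B i ⊆ A i) (w : (Fin D → ℤ) → ℝ) :
    ∑ v ∈ pts Λ c s M N P P' (fun i => A i \ B i), w v = ∑ t ∈ (univ : Finset (Fin r)).powerset, (-1) ^ (univ \ t).card *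
      ∑ v ∈ pts Λ c s M N P P' (fun i => if i ∈ t then A i else B i), w v := by
  classical
  rw [sum_pts_ind]
  have e1 : ∀ v : Fin D → ℤ, ∏ i, (A i \ B i).indicator (fun _ => (1 : ℝ)) (dot (Λ i) v + c i) =
      ∑ t ∈ (univ : Finset (Fin r)).powerset, (-1) ^ (univ \ t).card *
        ∏ i, (if i ∈ t then A i else B i).indicator (fun _ => (1 : ℝ)) (dot (Λ i) v + c i) := by
    intro v
    have e2 : ∀ i, (A i \ B i).indicator (fun _ => (1 : ℝ)) (dot (Λ i) v + c i) =
        (A i).indicator (fun _ => (1 : ℝ)) (dot (Λ i) v + c i) - (B i).indicator (fun _ => (1 : ℝ)) (dot (Λ i) v + c i) := by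
      intro i
      by_cases h1 : dot (Λ i) v + c i ∈ B i
      · rw [Set.indicator_of_mem h1, Set.indicator_of_mem (hBA i h1), Set.indicator_of_notMem (fun h => h.2 h1), sub_self]
      · rw [Set.indicator_of_notMem h1, sub_zero]
        by_cases h2 : dot (Λ i) v + c i ∈ A i
        · have h3 : dot (Λ i) v + c i ∈ A i \ B i := Set.mem_sdiff_of_mem h2 h1
          rw [Set.indicator_of_mem h2, Set.indicator_of_mem h3]
        · rw [Set.indicator_of_notMem h2, Set.indicator_of_notMem (fun h => h2 h.1)]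
    simp only [e2]
    rw [prod_expand]
    apply sum_congr rfl
    intro t _
    congr 1
    apply prod_congr rfl
    intro i _
    split_ifs <;> rfl
  simp only [e1]
  simp only [mul_sum (s := (univ : Finset (Fin r)).powerset)]
  rw [sum_comm]
  apply sum_congr rfl
  intro t _
  rw [sum_pts_ind Λ c s M N P P' (fun i => if i ∈ t then A i else B i) w, mul_sum]
  apply sum_congr rfl
  intro v _
  ring

end Pool.Agent.W36.JL
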