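import Pool.Agent.W36.JL.K5

/-! Almost prime values of systems of linear forms with given total stopping times. -/

set_option autoImplicit false

namespace Pool.Agent.W36.JL

open Finset Pool.Agent.W36.GK Pool.Agent.H499R2.CO Pool.Agent.W41 Pool.Agent.W41.FU Pool.Agent.W36.FD
  Pool.Agent.W36.GU Pool.Agent.W36.GV Pool.Agent.W36.GL
open Pool.Agent.W36.GS hiding inv_iter surv_of bad bad_of surv_int surv_Icc ub2 bad_sum cmp cmp_parq
open Pool.Agent.H499R2.ND (Dn Phi)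

theorem SX_mono {m : ℕ} {a : ℤ} {x y : ℝ} (h : y ≤ x) : SX m a y ⊆ SX m a x :=
  fun _ hn => ⟨hn.1, EB_mono (bd_mono h _) hn.2⟩

/-- almost prime values -/
theorem patternsJ {D r m : ℕ} (hm : 1 ≤ m) {δ : ℝ} (hδ0 : 0 < δ) (hδ1 : δ ≤ 1)
    (hlaw : ∀ a : ℤ, ∀ x : ℝ, Dn (fun n => EB m a (bd x n) n) (δ * Phi x / m))
    {Λ : Fin r → Fin (D + 1) → ℤ}
    (hΛ : ∀ i j, i ≠ j → Indep (Λ i) (Λ j)) (hadm : ∀ p : ℕ, p.Prime → ∃ u : Fin (D + 1) → ℤ, ∀ i, ¬ (p : ℤ) ∣ dot (Λ i) u)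
    {u : Fin (D + 1) → ℤ} (hu : ∀ i, 0 < dot (Λ i) u) (a : Fin r → ℤ) {x' y' : Fin r → ℝ} (hxy : ∀ i, y' i < x' i)
    (hSX : ∀ i, SX m (a i) (y' i) ⊆ SX m (a i) (x' i)) :
    ∃ A : ℕ, ∀ q : ℕ, q % 2 = 1 → ∀ ρ : Fin (D + 1) → ℤ,
      (∀ i, ∀ p : ℕ, p.Prime → p ∣ q → ¬ ((p ^ q.factorization p : ℕ) : ℤ) ∣ dot (Λ i) ρ) → ∀ N : ℕ, A * q ^ A ≤ N →
      (N : ℝ) ^ (D + 1) ≤ (q : ℝ) ^ (D + 1) * Real.log N ^ A * ({x : Fin (D + 1) → ℤ | (∀ j, -(N : ℤ) < x j ∧ x j ≤ N ∧ (q : ℤ) ∣ x j - ρ j) ∧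
        ∀ i, dot (Λ i) x ∈ SX m (a i) (x' i) \ SX m (a i) (y' i) ∧ 0 < dot (Λ i) x ∧ dot (Λ i) x ≤ N ∧
          ArithmeticFunction.cardFactors ((dot (Λ i) x).natAbs / Nat.gcd (dot (Λ i) x).natAbs q) ≤ A}.ncard : ℝ) := by
  classical
  obtain ⟨κ', hκ', θ1, hθ1, N1, h1⟩ := manyJ (κ := r) hm hδ0 hδ1 hlaw hΛ hu a hxy hSX
  obtain ⟨S, hS⟩ : ∃ S : Fin r → Set ℤ, S = fun i => SX m (a i) (x' i) \ SX m (a i) (y' i) := ⟨_, rfl⟩
  rw [← hS] at h1
  obtain ⟨C, N2, h2⟩ := VV_log (D + 1) r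
  obtain ⟨θ, hθd⟩ : ∃ θ : ℝ, θ = min θ1 1 := ⟨_, rfl⟩
  have hθ : 0 < θ := by rw [hθd]; exact lt_min hθ1 one_pos
  have hθθ1 : θ ≤ θ1 := by rw [hθd]; exact min_le_left _ _
  have hθ11 : θ ≤ 1 := by rw [hθd]; exact min_le_right _ _
  obtain ⟨A1, hA1⟩ := exists_large (1 / θ)
  obtain ⟨A2, hA2⟩ := exists_large (((N2 : ℝ) + 3) ^ (1 / θ))
  obtain ⟨x0, hx0⟩ := log_large (1 + 1 / κ')
  obtain ⟨A, hA⟩ : ∃ A, A = A1 + A2 + x0 + N1 + C + 2 := ⟨_, rfl⟩
  refine ⟨A, fun q hq ρ hρ N hN => ?_⟩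
  have hq1 : 1 ≤ q := by omega
  have hNA : A ≤ N := le_trans (Nat.le_mul_of_pos_right _ (Nat.pow_pos hq1)) hN
  have hN1 : 1 ≤ N := by omega
  have hNR : (1 : ℝ) ≤ N := by exact_mod_cast hN1
  have hNN : (N : ℝ) ^ θ ≤ (N : ℝ) ^ θ1 := Real.rpow_le_rpow_of_exponent_le hNR hθθ1
  obtain ⟨y, hy⟩ : ∃ y : ℕ, y = ⌊(N : ℝ) ^ θ⌋₊ := ⟨_, rfl⟩
  have hy1 : (y : ℝ) ≤ (N : ℝ) ^ θ := by rw [hy]; exact Nat.floor_le (by positivity)
  have hy2 : (N : ℝ) ^ θ < (y : ℝ) + 1 := by rw [hy]; exact Nat.lt_floor_add_one _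
  have hyN2 : N2 + 2 ≤ y := by
    have h3 : ((N2 : ℝ) + 3) ≤ (N : ℝ) ^ θ := by
      have h4 : ((N2 : ℝ) + 3) ^ (1 / θ) ≤ N := hA2.trans (by exact_mod_cast (by omega : A2 ≤ N))
      have h5 := Real.rpow_le_rpow (by positivity) h4 hθ.le
      rwa [← Real.rpow_mul (by positivity), one_div_mul_cancel hθ.ne', Real.rpow_one] at h5
    have h4 : (N2 : ℝ) + 2 < y := by linarith
    have h5 : N2 + 2 < y := by exact_mod_cast h4
    omega
  have hyN : y ≤ N := by
    have : (N : ℝ) ^ θ ≤ (N : ℝ) ^ (1 : ℝ) := Real.rpow_le_rpow_of_exponent_le hNR hθ11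
    rw [Real.rpow_one] at this
    exact_mod_cast hy1.trans this
  have hqN : (q : ℝ) ≤ (N : ℝ) ^ θ1 := by
    have hA0 : (0 : ℝ) < A := by exact_mod_cast (by omega : 0 < A)
    have h3 : ((q : ℝ) ^ A) ≤ N := by
      have h4 : 1 * q ^ A ≤ A * q ^ A := Nat.mul_le_mul_right _ (by omega)
      exact_mod_cast (by omega : q ^ A ≤ N)
    have h4 := Real.rpow_le_rpow (by positivity) h3 (show (0 : ℝ) ≤ 1 / A by positivity)
    rw [← Real.rpow_natCast, ← Real.rpow_mul (Nat.cast_nonneg _), mul_one_div_cancel hA0.ne', Real.rpow_one] at h4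
    refine h4.trans ((Real.rpow_le_rpow_of_exponent_le hNR ?_).trans hNN)
    rw [div_le_iff₀ hA0]
    rw [div_le_iff₀ hθ] at hA1
    have h5 : (A1 : ℝ) ≤ A := by exact_mod_cast (by omega : A1 ≤ A)
    nlinarith
  obtain ⟨Q, hQ⟩ : ∃ Q : Finset ℕ, Q = (Icc 1 y).filter (fun p => p.Prime ∧ ¬ p ∣ q) := ⟨_, rfl⟩
  have hQm : ∀ p, p ∈ Q ↔ (p.Prime ∧ p ≤ y ∧ ¬ p ∣ q) := by
    intro p
    rw [hQ, mem_filter, mem_Icc]
    constructor
    · rintro ⟨⟨-, a⟩, b, c⟩; exact ⟨b, a, c⟩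
    · rintro ⟨b, a, c⟩; exact ⟨⟨b.one_lt.le, a⟩, b, c⟩
  have hΩ : ∀ p ∈ Q, (zs Λ p).ncard * p ≤ r * p ^ (D + 1) := by
    intro p hp
    obtain ⟨u, hu⟩ := hadm p ((hQm p).1 hp).1
    exact zs_card ((hQm p).1 hp).1 hu
  have hV0 : VV Q (zs Λ) ≠ 0 := by
    apply VV_ne (fun p hp => ((hQm p).1 hp).1)
    intro p hp
    obtain ⟨u, hu⟩ := hadm p ((hQm p).1 hp).1
    refine ⟨rd p u, ?_⟩
    rw [rd_zs]
    rintro ⟨i, hi⟩
    exact hu i hi
  have h3 := h1 N (by omega) Q (fun p hp => ⟨((hQm p).1 hp).1, le_trans (by exact_mod_cast ((hQm p).1 hp).2.1) (hy1.trans hNN)⟩) (zs Λ) hΩ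
    q hq hqN (fun p hp => ((hQm p).1 hp).2.2) (rd q ρ)
  have h4 := h2 y (by omega) Q (fun p hp => ⟨((hQm p).1 hp).1, ((hQm p).1 hp).2.1⟩) (zs Λ) hΩ hV0
  -- the sum is at most the number
  set T : Set (Fin (D + 1) → ℤ) := {x : Fin (D + 1) → ℤ | (∀ j, -(N : ℤ) < x j ∧ x j ≤ N ∧ (q : ℤ) ∣ x j - ρ j) ∧
        ∀ i, dot (Λ i) x ∈ SX m (a i) (x' i) \ SX m (a i) (y' i) ∧ 0 < dot (Λ i) x ∧ dot (Λ i) x ≤ N ∧
          ArithmeticFunction.cardFactors ((dot (Λ i) x).natAbs / Nat.gcd (dot (Λ i) x).natAbs q) ≤ A} with hT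
  have hTfin : T.Finite := by
    apply (Finset.finite_toSet (Pool.Agent.W36.GK.box (fun _ : Fin (D + 1) => -(N : ℤ)) (fun _ => (N : ℤ)))).subset
    intro x hx
    rw [mem_coe, mem_box]
    exact fun j => ⟨(hx.1 j).1, (hx.1 j).2.1⟩
  have h5 : ∑ x ∈ pts Λ 0 (fun _ => 1) (fun _ => 0) (fun _ => N) (fun _ => -(N : ℤ)) (fun _ => (N : ℤ)) S, sgq q (rd q ρ) Q (zs Λ) x ≤ (T.ncard : ℝ) := by
    rw [Set.ncard_eq_toFinset_card T hTfin]
    have h6 : ∑ x ∈ pts Λ 0 (fun _ => 1) (fun _ => 0) (fun _ => N) (fun _ => -(N : ℤ)) (fun _ => (N : ℤ)) S, sgq q (rd q ρ) Q (zs Λ) x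
        ≤ ∑ x ∈ pts Λ 0 (fun _ => 1) (fun _ => 0) (fun _ => N) (fun _ => -(N : ℤ)) (fun _ => (N : ℤ)) S, (if x ∈ hTfin.toFinset then (1 : ℝ) else 0) := by
      apply sum_le_sum
      intro x hx
      unfold pts at hx
      rw [mem_filter, mem_box] at hx
      obtain ⟨hx1, hx2⟩ := hx
      unfold sgq sg
      by_cases hc : rd q x = rd q ρ
      · by_cases hdz : ∀ p ∈ Q, rd p x ∉ zs Λ p
        · rw [if_pos hc, if_pos hdz, if_pos]
          rw [Set.Finite.mem_toFinset]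
          have hdiv : ∀ j, (q : ℤ) ∣ x j - ρ j := by
            intro j
            have h7 := congrFun hc j
            unfold rd at h7
            rw [← ZMod.intCast_zmod_eq_zero_iff_dvd]
            push_cast
            rw [h7, sub_self]
          refine ⟨fun j => ⟨(hx1 j).1, (hx1 j).2, hdiv j⟩, fun i => ?_⟩
          have h8 := hx2 i
          simp only [Pi.zero_apply, add_zero] at h8
          obtain ⟨g1, g2, g3⟩ := h8
          rw [one_mul] at g2 g3
          rw [hS] at g1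
          refine ⟨g1, by exact_mod_cast g2, g3, ?_⟩
          have hw0 : dot (Λ i) x ≠ 0 := by
            intro h; rw [h] at g2; simp at g2
          have hwN : (dot (Λ i) x).natAbs ≤ N := by
            have : |dot (Λ i) x| ≤ N := by
              have g2' : 0 < dot (Λ i) x := by exact_mod_cast g2
              rw [abs_of_pos g2']; exact g3
            rw [← Int.natCast_natAbs] at this
            exact_mod_cast this
          obtain ⟨n, hn⟩ : ∃ n, n = (dot (Λ i) x).natAbs := ⟨_, rfl⟩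
          rw [← hn] at hwN ⊢
          have hn0 : n ≠ 0 := by omega
          have hq0 : q ≠ 0 := by omega
          have hg0 : 0 < Nat.gcd n q := Nat.gcd_pos_of_pos_right _ (by omega)
          have hgn : Nat.gcd n q ∣ n := Nat.gcd_dvd_left _ _
          have hgq : Nat.gcd n q ∣ q := Nat.gcd_dvd_right _ _
          have hn' : n / Nat.gcd n q ≠ 0 := (Nat.div_pos (Nat.le_of_dvd (by omega) hgn) hg0).ne'
          apply few_factors hn' ((Nat.div_le_self _ _).trans hwN) _ hθ hy2 hN1 (hA1.trans (by exact_mod_cast (by omega : A1 ≤ A)))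
          intro p hp hpd
          have hpgn : p * Nat.gcd n q ∣ n := by
            have h9 := Nat.mul_dvd_mul_right hpd (Nat.gcd n q)
            rwa [Nat.div_mul_cancel hgn] at h9
          have hpn : p ∣ n := dvd_trans (dvd_mul_right _ _) hpgn
          have hpd' : (p : ℤ) ∣ dot (Λ i) x := Int.natCast_dvd.2 (by rw [← hn]; exact hpn)
          by_contra hcon
          have hpq : ¬ p ∣ q := by
            intro hpq
            have hlt : n.factorization p < q.factorization p := by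
              by_contra h10
              push Not at h10
              apply hρ i p hp hpq
              have h11 : p ^ q.factorization p ∣ n := (hp.pow_dvd_iff_le_factorization hn0).2 h10
              have h12 : ((p ^ q.factorization p : ℕ) : ℤ) ∣ dot (Λ i) x := Int.natCast_dvd.2 (by rw [← hn]; exact h11)
              have g5 : (q : ℤ) ∣ dot (Λ i) x - dot (Λ i) ρ := by
                rw [← dot_sub']
                unfold dot
                apply Finset.dvd_sum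
                intro j _
                exact Dvd.dvd.mul_left (hdiv j) _
              have g6 : ((p ^ q.factorization p : ℕ) : ℤ) ∣ dot (Λ i) x - dot (Λ i) ρ :=
                dvd_trans (by exact_mod_cast Nat.ordProj_dvd q p) g5
              have := dvd_sub h12 g6
              simpa using this
            have hpgq : p * Nat.gcd n q ∣ q := by
              rw [← Nat.factorization_le_iff_dvd (Nat.mul_ne_zero hp.ne_zero hg0.ne') hq0, Nat.factorization_mul hp.ne_zero hg0.ne']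
              intro l
              rw [Finsupp.add_apply, hp.factorization]
              by_cases hl : l = p
              · rw [hl, Finsupp.single_eq_same]
                have h13 : (Nat.gcd n q).factorization p ≤ n.factorization p := (Nat.factorization_le_iff_dvd hg0.ne' hn0).2 hgn p
                omega
              · rw [Finsupp.single_eq_of_ne hl, zero_add]
                exact (Nat.factorization_le_iff_dvd hg0.ne' hq0).2 hgq l
            have h14 : p * Nat.gcd n q ∣ Nat.gcd n q := Nat.dvd_gcd hpgn hpgq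
            have h15 := Nat.le_of_dvd hg0 h14
            have h16 := hp.two_le
            nlinarith
          exact hdz p ((hQm p).2 ⟨hp, by omega, hpq⟩) ((rd_zs Λ p x).2 ⟨i, hpd'⟩)
        · rw [if_pos hc, if_neg hdz]; split_ifs <;> norm_num
      · rw [if_neg hc]; split_ifs <;> norm_num
    refine h6.trans ?_
    rw [← sum_filter, sum_const, nsmul_eq_mul, mul_one]
    have : ((pts Λ 0 (fun _ => 1) (fun _ => 0) (fun _ => N) (fun _ => -(N : ℤ)) (fun _ => (N : ℤ)) S).filter (fun x => x ∈ hTfin.toFinset)).card ≤ hTfin.toFinset.card :=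
      card_le_card fun x hx => (mem_filter.1 hx).2
    exact_mod_cast this
  -- numbers
  have hL : 1 + 1 / κ' ≤ Real.log N := hx0 N (by omega)
  have hκi : 0 < 1 / κ' := by positivity
  have hL1 : 1 ≤ Real.log N := by linarith
  have hqR : (0 : ℝ) < q := by exact_mod_cast hq1
  have hVN : 1 / Real.log N ^ C ≤ VV Q (zs Λ) := by
    refine le_trans ?_ h4
    have hy0 : (1 : ℝ) < y := by exact_mod_cast (by omega : 1 < y)
    have hly : 0 < Real.log y := Real.log_pos hy0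
    apply one_div_le_one_div_of_le (by positivity)
    apply pow_le_pow_left₀ hly.le
    apply Real.log_le_log (by linarith)
    exact_mod_cast hyN
  have h6 : κ' * (1 / Real.log N ^ C / (q : ℝ) ^ (D + 1)) * (N : ℝ) ^ (D + 1) ≤ (T.ncard : ℝ) := by
    refine le_trans ?_ (h3.trans h5)
    apply mul_le_mul_of_nonneg_right _ (by positivity)
    apply mul_le_mul_of_nonneg_left _ hκ'.le
    exact div_le_div_of_nonneg_right hVN (by positivity)
  have h7 : 1 ≤ κ' * Real.log N ^ (A - C) := by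
    have h8 : Real.log N ^ 1 ≤ Real.log N ^ (A - C) := pow_le_pow_right₀ hL1 (by omega)
    rw [pow_one] at h8
    have h9 : 1 / κ' ≤ Real.log N ^ (A - C) := by linarith
    rw [div_le_iff₀ hκ'] at h9
    linarith
  calc (N : ℝ) ^ (D + 1) ≤ (κ' * Real.log N ^ (A - C)) * (N : ℝ) ^ (D + 1) := le_mul_of_one_le_left (by positivity) h7
    _ = (q : ℝ) ^ (D + 1) * Real.log N ^ A * (κ' * (1 / Real.log N ^ C / (q : ℝ) ^ (D + 1)) * (N : ℝ) ^ (D + 1)) := by
        have e : Real.log N ^ A = Real.log N ^ (A - C) * Real.log N ^ C := by rw [← pow_add]; congr 1; omega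
        rw [e]
        have : Real.log N ^ C ≠ 0 := by positivity
        field_simp
    _ ≤ (q : ℝ) ^ (D + 1) * Real.log N ^ A * (T.ncard : ℝ) := mul_le_mul_of_nonneg_left h6 (by positivity)

end Pool.Agent.W36.JL
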